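import Pool.Agent.KS6_66.WA.Defs

/-! Henon maps multiply the area by `|b|`. For `|b| > 1` all basins are null sets; for `|b| = 1` a
compact invariant set attracts no set of positive area outside itself. -/

set_option autoImplicit false

namespace Pool.Agent.KS6_66.WA

open Set Filter Topology MeasureTheory

open scoped ENNReal

noncomputable section

variable (p : Polynomial ℝ) (b : ℝ)

lemma henon_continuous : Continuous (henon p b) := by
  unfold henon
  fun_prop

lemma henon_injective (hb : b ≠ 0) : Function.Injective (henon p b) := by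
  rintro ⟨x, y⟩ ⟨x', y'⟩ h
  simp only [henon, Prod.mk.injEq] at h
  obtain ⟨h1, rfl⟩ := h
  have : b * y = b * y' := by linarith
  rw [mul_left_cancel₀ hb this]

/-- The push-forward of the area. -/
lemma map_henon (hb : b ≠ 0) : Measure.map (henon p b) volume =
    ENNReal.ofReal |b|⁻¹ • (volume : Measure (ℝ × ℝ)) := by
  have hc : ENNReal.ofReal |(-b)⁻¹| = ENNReal.ofReal |b|⁻¹ := by
    rw [abs_inv, abs_neg]
  have h1 : ∀ x : ℝ, Measure.map (fun y : ℝ => p.eval x - b * y) volume =
      ENNReal.ofReal |b|⁻¹ • (volume : Measure ℝ) := by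
    intro x
    have e : (fun y : ℝ => p.eval x - b * y) = (fun t => p.eval x + t) ∘ (fun y => (-b) * y) := by
      funext y
      simp only [Function.comp_apply]
      ring
    rw [e, ← Measure.map_map (measurable_const_add _) (measurable_const_mul _),
      Real.map_volume_mul_left (neg_ne_zero.2 hb), Measure.map_smul, map_add_left_eq_self, hc]
  have h2 : MeasurePreserving (fun z : ℝ × ℝ => (id z.1, p.eval z.1 - b * z.2))
      ((volume : Measure ℝ).prod (volume : Measure ℝ))
      ((volume : Measure ℝ).prod (ENNReal.ofReal |b|⁻¹ • (volume : Measure ℝ))) := by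
    refine (MeasurePreserving.id (volume : Measure ℝ)).skew_product
      (g := fun x y => p.eval x - b * y) ?_ (ae_of_all _ h1)
    apply Continuous.measurable
    unfold Function.uncurry
    fun_prop
  have h3 : MeasurePreserving (henon p b) ((volume : Measure ℝ).prod (volume : Measure ℝ))
      ((ENNReal.ofReal |b|⁻¹ • (volume : Measure ℝ)).prod (volume : Measure ℝ)) :=
    Measure.measurePreserving_swap.comp h2
  have h4 := h3.map_eq
  rw [Measure.prod_smul_left] at h4
  exact h4

lemma measure_preimage (hb : b ≠ 0) {s : Set (ℝ × ℝ)} (hs : MeasurableSet s) :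
    volume (henon p b ⁻¹' s) = ENNReal.ofReal |b|⁻¹ * volume s := by
  rw [← Measure.map_apply (henon_continuous p b).measurable hs, map_henon p b hb]
  rfl

lemma null_preimage (hb : b ≠ 0) {s : Set (ℝ × ℝ)} (hs : volume s = 0) :
    volume (henon p b ⁻¹' s) = 0 := by
  have h := measure_preimage p b hb (measurableSet_toMeasurable volume s)
  rw [measure_toMeasurable, hs, mul_zero] at h
  exact measure_mono_null (preimage_mono (subset_toMeasurable volume s)) h

lemma null_preimage_iter (hb : b ≠ 0) {s : Set (ℝ × ℝ)} (hs : volume s = 0) (n : ℕ) :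
    volume ((henon p b)^[n] ⁻¹' s) = 0 := by
  induction n with
  | zero => simpa using hs
  | succ n ih =>
    rw [Function.iterate_succ, preimage_comp]
    exact null_preimage p b hb ih

/-- Orbits in the basin of a compact set are eventually in any compact neighbourhood of it. -/
lemma eventually_in {F : ℝ × ℝ → ℝ × ℝ} (hF : Continuous F) {Λ N : Set (ℝ × ℝ)}
    (hN : IsCompact N) (hΛN : Λ ⊆ interior N) {z : ℝ × ℝ} (hz : z ∈ basin F Λ) :
    ∀ᶠ n : ℕ in atTop, F^[n] z ∈ N := by
  obtain ⟨⟨w, hw⟩, hsub⟩ := hz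
  by_contra hcon
  have hcon' : ∃ᶠ n : ℕ in atTop, F^[n] z ∉ interior N := by
    intro h
    apply hcon
    filter_upwards [h] with n hn
    exact interior_subset (not_not.1 hn)
  have hin : ∃ᶠ n : ℕ in atTop, F^[n] z ∈ interior N :=
    (mapClusterPt_iff_frequently.1 hw) _ (isOpen_interior.mem_nhds (hΛN (hsub hw)))
  have hK : IsCompact (F '' N \ interior N) := (hN.image hF).diff isOpen_interior
  have hfr : ∃ᶠ n : ℕ in atTop, F^[n] z ∈ F '' N \ interior N := by
    rw [frequently_atTop] at hin hcon' ⊢
    intro M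
    obtain ⟨n1, hn1, h1⟩ := hin M
    classical
    have hex : ∃ k, F^[n1 + k] z ∉ interior N := by
      obtain ⟨n2, hn2, h2⟩ := hcon' n1
      obtain ⟨k, rfl⟩ := Nat.exists_eq_add_of_le hn2
      exact ⟨k, h2⟩
    have hk := Nat.find_spec hex
    have hmin := fun j (hj : j < Nat.find hex) => not_not.1 (Nat.find_min hex hj)
    obtain ⟨k, hkk⟩ : ∃ k, Nat.find hex = k + 1 := by
      rcases Nat.eq_zero_or_pos (Nat.find hex) with h0 | h0
      · rw [h0] at hk
        exact absurd h1 hk
      · exact ⟨Nat.find hex - 1, by omega⟩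
    rw [hkk] at hk
    have h3 := hmin k (by omega)
    refine ⟨n1 + (k + 1), by omega, ⟨F^[n1 + k] z, interior_subset h3, ?_⟩, hk⟩
    rw [← add_assoc, Function.iterate_succ_apply']
  obtain ⟨a, ha, hcl⟩ := hK.exists_mapClusterPt_of_frequently hfr
  exact ha.2 (hΛN (hsub hcl))

/-- The points whose forward orbits stay in `N`. -/
def stay (N : Set (ℝ × ℝ)) : Set (ℝ × ℝ) := {w | ∀ k : ℕ, (henon p b)^[k] w ∈ N}

lemma stay_sub (N : Set (ℝ × ℝ)) : stay p b N ⊆ N := fun _ hw => hw 0

lemma stay_closed {N : Set (ℝ × ℝ)} (hN : IsClosed N) : IsClosed (stay p b N) := by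
  have : stay p b N = ⋂ k : ℕ, (henon p b)^[k] ⁻¹' N := by
    ext w
    simp [stay]
  rw [this]
  exact isClosed_iInter fun k => hN.preimage ((henon_continuous p b).iterate k)

lemma stay_forward (N : Set (ℝ × ℝ)) : stay p b N ⊆ henon p b ⁻¹' stay p b N := by
  intro w hw k
  have := hw (k + 1)
  rwa [Function.iterate_succ_apply] at this

lemma exists_nbhd {Λ : Set (ℝ × ℝ)} (hΛ : IsCompact Λ) :
    ∃ N : Set (ℝ × ℝ), IsCompact N ∧ Λ ⊆ interior N := by
  obtain ⟨N, hN, h⟩ := exists_compact_superset hΛ
  exact ⟨N, hN, h⟩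

lemma basin_cover {Λ N : Set (ℝ × ℝ)} (hN : IsCompact N) (hΛN : Λ ⊆ interior N) {z : ℝ × ℝ}
    (hz : z ∈ basin (henon p b) Λ) : ∃ n : ℕ, (henon p b)^[n] z ∈ stay p b N := by
  obtain ⟨n, hn⟩ := eventually_atTop.1 (eventually_in (henon_continuous p b) hN hΛN hz)
  refine ⟨n, fun k => ?_⟩
  rw [← Function.iterate_add_apply]
  exact hn _ (by omega)

/-- For Jacobian larger than one in modulus all basins are null sets. -/
theorem basin_null (hb : 1 < |b|) {Λ : Set (ℝ × ℝ)} (hΛ : IsCompact Λ) :
    volume (basin (henon p b) Λ) = 0 := by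
  have hb0 : b ≠ 0 := by
    rintro rfl
    rw [abs_zero] at hb
    linarith
  obtain ⟨N, hN, hΛN⟩ := exists_nbhd hΛ
  have hW : volume (stay p b N) = 0 := by
    by_contra hpos
    have hfin : volume (stay p b N) ≠ ∞ :=
      ((measure_mono (stay_sub p b N)).trans_lt hN.measure_lt_top).ne
    have h1 := measure_mono (μ := volume) (stay_forward p b N)
    rw [measure_preimage p b hb0 (stay_closed p b hN.isClosed).measurableSet] at h1
    have h2 : ENNReal.ofReal |b|⁻¹ < 1 := by
      rw [ENNReal.ofReal_lt_one]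
      exact inv_lt_one_of_one_lt₀ hb
    have h3 : ENNReal.ofReal |b|⁻¹ * volume (stay p b N) < 1 * volume (stay p b N) :=
      (ENNReal.mul_lt_mul_iff_left hpos hfin).2 h2
    rw [one_mul] at h3
    exact absurd h1 (not_le.2 h3)
  have hcov : basin (henon p b) Λ ⊆ ⋃ n : ℕ, (henon p b)^[n] ⁻¹' stay p b N := by
    intro z hz
    obtain ⟨n, hn⟩ := basin_cover p b hN hΛN hz
    exact mem_iUnion.2 ⟨n, hn⟩
  exact measure_mono_null hcov (measure_iUnion_null fun n => null_preimage_iter p b hb0 hW n)

/-- For Jacobian of modulus one an invariant compact set attracts only a null set outside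
itself. -/
theorem basin_diff_null (hb : |b| = 1) {Λ : Set (ℝ × ℝ)} (hΛ : IsCompact Λ)
    (hinv : henon p b '' Λ = Λ) : volume (basin (henon p b) Λ \ Λ) = 0 := by
  have hb0 : b ≠ 0 := by
    rintro rfl
    rw [abs_zero] at hb
    norm_num at hb
  obtain ⟨N, hN, hΛN⟩ := exists_nbhd hΛ
  have hmp : MeasurePreserving (henon p b) volume volume := by
    refine ⟨(henon_continuous p b).measurable, ?_⟩
    rw [map_henon p b hb0, hb, inv_one, ENNReal.ofReal_one, one_smul]
  have hWm : MeasurableSet (stay p b N) := (stay_closed p b hN.isClosed).measurableSet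
  have hfin : volume (stay p b N) ≠ ∞ :=
    ((measure_mono (stay_sub p b N)).trans_lt hN.measure_lt_top).ne
  -- the restriction to the set of orbits staying in `N` is preserved
  have hae : stay p b N =ᵐ[volume] henon p b ⁻¹' stay p b N :=
    ae_eq_of_subset_of_measure_ge (stay_forward p b N)
      (hmp.measure_preimage hWm.nullMeasurableSet).le hWm.nullMeasurableSet
      (by rw [hmp.measure_preimage hWm.nullMeasurableSet]; exact hfin)
  have hres : MeasurePreserving (henon p b) (volume.restrict (stay p b N))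
      (volume.restrict (stay p b N)) := by
    have h := hmp.restrict_preimage hWm
    rwa [Measure.restrict_congr_set hae.symm] at h
  haveI : IsFiniteMeasure (volume.restrict (stay p b N)) :=
    ⟨by rw [Measure.restrict_apply_univ]; exact lt_top_iff_ne_top.2 hfin⟩
  have hrec := hres.conservative.ae_frequently_mem_of_mem_nhds
  rw [ae_restrict_iff' hWm] at hrec
  set B : Set (ℝ × ℝ) := {w | w ∈ stay p b N ∧ w ∉ omega (henon p b) w} with hB
  have hB0 : volume B = 0 := by
    refine measure_mono_null ?_ (ae_iff.1 hrec)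
    rintro w ⟨h1, h2⟩ h3
    exact h2 (mapClusterPt_iff_frequently.2 (h3 h1))
  have hcov : basin (henon p b) Λ \ Λ ⊆ ⋃ n : ℕ, (henon p b)^[n] ⁻¹' B := by
    rintro z ⟨hz, hzΛ⟩
    obtain ⟨n, hn⟩ := basin_cover p b hN hΛN hz
    refine mem_iUnion.2 ⟨n, hn, fun hmem => ?_⟩
    have h1 : (henon p b)^[n] z ∈ omega (henon p b) z := by
      have h2 : MapClusterPt ((henon p b)^[n] z) atTop
        (fun k : ℕ => (henon p b)^[k] ((henon p b)^[n] z)) := hmem
      rw [mapClusterPt_iff_frequently] at h2
      show MapClusterPt _ _ _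
      rw [mapClusterPt_iff_frequently]
      intro s hs
      have h3 := h2 s hs
      rw [frequently_atTop] at h3 ⊢
      intro M
      obtain ⟨k, hk, hks⟩ := h3 M
      refine ⟨k + n, by omega, ?_⟩
      rwa [Function.iterate_add_apply]
    have h4 : ∀ m : ℕ, (henon p b)^[m] z ∈ Λ → z ∈ Λ := by
      intro m
      induction m with
      | zero => exact fun h => h
      | succ m ih =>
        intro h
        rw [Function.iterate_succ_apply', ← hinv] at h
        obtain ⟨u, hu, hue⟩ := h
        rw [henon_injective p b hb0 hue] at hu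
        exact ih hu
    exact hzΛ (h4 n (hz.2 h1))
  exact measure_mono_null hcov (measure_iUnion_null fun n => null_preimage_iter p b hb0 hB0 n)

end

end Pool.Agent.KS6_66.WA
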