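import Pool.Agent.KS6_66.WA.Defs

/-! A trapping lemma at a one-sided neutral orbit, for second order recursions
`y (n + 2) = h n (y (n + 1)) - c * y n`. -/

set_option autoImplicit false

namespace Pool.Agent.KS6_66.WA

open Set Filter Topology MeasureTheory

/-- One step of the recursion. -/
lemma trap_step {c A B K e x y w : ℝ} (hc0 : 0 < c) (hc1 : c < 1) (hA : 0 < A) (hB : 0 < B)
    (hK : K = 2 * B / (1 - c)) (he : e = B / (2 * K ^ 2))
    (h1 : (1 + c) * x + A * x ^ 2 ≤ w) (h2 : w ≤ (1 + c) * x + B * x ^ 2)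
    (hx1 : -e < x) (hx2 : x < 0) (hv1 : 0 < x - y) (hv2 : x - y < K * x ^ 2) :
    -e < w - c * y ∧ w - c * y < 0 ∧ x + A * x ^ 2 < w - c * y ∧
      (w - c * y) - x < K * (w - c * y) ^ 2 := by
  have h1c : 0 < 1 - c := by linarith
  have hK0 : 0 < K := by rw [hK]; positivity
  have hKB : (1 - c) * K = 2 * B := by rw [hK]; field_simp
  have he0 : 0 < e := by rw [he]; positivity
  have hKe : 2 * K ^ 2 * e = B := by rw [he]; field_simp
  have hBK : B < K := by nlinarith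
  have hx0 : 0 < x ^ 2 := by have := mul_pos_of_neg_of_neg hx2 hx2; nlinarith
  obtain ⟨v, hv⟩ : ∃ v, v = (w - c * y) - x := ⟨_, rfl⟩
  have ev : w - c * y = x + v := by rw [hv]; ring
  have hvlow : A * x ^ 2 < v := by
    have := mul_pos hc0 hv1
    rw [hv]; nlinarith
  have hvup : v ≤ (K - B) * x ^ 2 := by
    have h3 : c * (x - y) ≤ c * (K * x ^ 2) := mul_le_mul_of_nonneg_left hv2.le hc0.le
    have h4 : c * (K * x ^ 2) = (K - 2 * B) * x ^ 2 := by
      have : c * K = K - 2 * B := by linarith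
      rw [← this]; ring
    rw [hv]; nlinarith
  have hv0 : 0 < v := lt_trans (by positivity) hvlow
  -- `v ≤ (K - B) e |x|`
  have hxe : x ^ 2 ≤ e * (-x) := by nlinarith
  have hvx : v ≤ ((K - B) * e) * (-x) := by
    have : (K - B) * x ^ 2 ≤ (K - B) * (e * (-x)) := mul_le_mul_of_nonneg_left hxe (by linarith)
    linarith
  obtain ⟨t, ht⟩ : ∃ t, t = (K - B) * e := ⟨_, rfl⟩
  rw [← ht] at hvx
  have ht0 : 0 < t := by rw [ht]; exact mul_pos (by linarith) he0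
  have hKt : 2 * K * t < B := by
    have : 2 * K * t = 2 * K ^ 2 * e - 2 * K * B * e := by rw [ht]; ring
    rw [this, hKe]
    have : 0 < 2 * K * B * e := by positivity
    linarith
  have ht1 : t < 1 := by nlinarith
  have hneg : x + v < 0 := by nlinarith
  rw [ev]
  refine ⟨by linarith, hneg, by linarith, ?_⟩
  have h5 : (1 - t) * (-x) ≤ -(x + v) := by linarith
  have h6 : ((1 - t) * (-x)) ^ 2 ≤ (x + v) ^ 2 := by
    have h7 : 0 ≤ (1 - t) * (-x) := mul_nonneg (by linarith) (by linarith)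
    calc ((1 - t) * (-x)) ^ 2 ≤ (-(x + v)) ^ 2 := pow_le_pow_left₀ h7 h5 2
      _ = (x + v) ^ 2 := by ring
  have h8 : K * ((1 - t) * (-x)) ^ 2 ≤ K * (x + v) ^ 2 := mul_le_mul_of_nonneg_left h6 hK0.le
  have h9 : (K - B) * x ^ 2 < K * ((1 - t) * (-x)) ^ 2 := by
    have : K * ((1 - t) * (-x)) ^ 2 = (K - 2 * K * t + K * t ^ 2) * x ^ 2 := by ring
    rw [this]
    apply mul_lt_mul_of_pos_right _ hx0
    have : 0 < K * t ^ 2 := by positivity
    linarith
  linarith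

/-- Orbits in the trapping region stay there and converge to the neutral orbit. -/
lemma trap {c A B K e : ℝ} (hc0 : 0 < c) (hc1 : c < 1) (hA : 0 < A) (hB : 0 < B)
    (hK : K = 2 * B / (1 - c)) (he : e = B / (2 * K ^ 2)) (h : ℕ → ℝ → ℝ)
    (hh : ∀ n x, -e < x → x < 0 → (1 + c) * x + A * x ^ 2 ≤ h n x ∧
      h n x ≤ (1 + c) * x + B * x ^ 2) (y : ℕ → ℝ)
    (hy : ∀ n, y (n + 2) = h n (y (n + 1)) - c * y n) (h1 : -e < y 1) (h2 : y 1 < 0)
    (h3 : 0 < y 1 - y 0) (h4 : y 1 - y 0 < K * y 1 ^ 2) :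
    (∀ n, -e < y (n + 1) ∧ y (n + 1) < 0) ∧ Tendsto y atTop (𝓝 0) := by
  have key : ∀ n, (-e < y (n + 1) ∧ y (n + 1) < 0 ∧ 0 < y (n + 1) - y n ∧
      y (n + 1) - y n < K * y (n + 1) ^ 2) ∧ y (n + 1) + A * y (n + 1) ^ 2 < y (n + 2) := by
    intro n
    induction n with
    | zero =>
      refine ⟨⟨h1, h2, h3, h4⟩, ?_⟩
      obtain ⟨ha, hb⟩ := hh 0 _ h1 h2
      have := trap_step hc0 hc1 hA hB hK he ha hb h1 h2 h3 h4
      rw [hy 0]
      exact this.2.2.1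
    | succ n ih =>
      obtain ⟨⟨g1, g2, g3, g4⟩, _⟩ := ih
      obtain ⟨ha, hb⟩ := hh n _ g1 g2
      obtain ⟨s1, s2, s3, s4⟩ := trap_step hc0 hc1 hA hB hK he ha hb g1 g2 g3 g4
      rw [← hy n] at s1 s2 s3 s4
      have hpos : 0 ≤ A * y (n + 1) ^ 2 := by positivity
      have s5 : 0 < y (n + 2) - y (n + 1) := by linarith
      obtain ⟨ha', hb'⟩ := hh (n + 1) _ s1 s2
      have := trap_step hc0 hc1 hA hB hK he ha' hb' s1 s2 s5 s4
      rw [← hy (n + 1)] at this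
      exact ⟨⟨s1, s2, s5, s4⟩, this.2.2.1⟩
  refine ⟨fun n => ⟨(key n).1.1, (key n).1.2.1⟩, ?_⟩
  have hmono : Monotone y := monotone_nat_of_le_succ fun n => by linarith [(key n).1.2.2.1]
  have hbdd : BddAbove (range y) := by
    refine ⟨0, ?_⟩
    rintro _ ⟨n, rfl⟩
    linarith [(key n).1.2.2.1, (key n).1.2.1]
  obtain ⟨l, hl⟩ : ∃ l, Tendsto y atTop (𝓝 l) := ⟨_, tendsto_atTop_ciSup hmono hbdd⟩
  have hl0 : l ≤ 0 := le_of_tendsto' hl fun n => by linarith [(key n).1.2.2.1, (key n).1.2.1]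
  have hl1 : Tendsto (fun n => y (n + 1)) atTop (𝓝 l) := (tendsto_add_atTop_iff_nat 1).2 hl
  have hl2 : Tendsto (fun n => y (n + 2)) atTop (𝓝 l) := (tendsto_add_atTop_iff_nat 2).2 hl
  have hl3 : l + A * l ^ 2 ≤ l :=
    le_of_tendsto_of_tendsto' (hl1.add ((hl1.pow 2).const_mul A)) hl2 fun n => (key n).2.le
  have hl4 : l ^ 2 ≤ 0 := by nlinarith
  have hl5 : l = 0 := by
    have : l ^ 2 = 0 := le_antisymm hl4 (sq_nonneg l)
    exact pow_eq_zero_iff (two_ne_zero) |>.1 this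
  rwa [hl5] at hl

end Pool.Agent.KS6_66.WA
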