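import Pool.Agent.KS6_66.WA.Code
import Pool.Agent.KS6_66.WA.Trap

/-! An open set attracted by the origin, positive Jacobian. -/

set_option autoImplicit false

namespace Pool.Agent.KS6_66.WA

open Set Filter Topology MeasureTheory

noncomputable section

variable (q : Par)

/-- The slope constant. -/
def KK : ℝ := 2 * 25 / (1 - q.b)

/-- The size of the trapping region. -/
def ee : ℝ := 25 / (2 * KK q ^ 2)

lemma KK_ge : 50 ≤ KK q := by
  have hb0 := q.hb0
  have hb1 := q.hb1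
  unfold KK
  rw [le_div_iff₀ (by linarith)]
  linarith

lemma ee_pos : 0 < ee q := by
  have := KK_ge q
  unfold ee
  positivity

lemma ee_le : ee q ≤ 1 / 200 := by
  have h := KK_ge q
  unfold ee
  rw [div_le_iff₀ (by positivity)]
  nlinarith

/-- A trapping region of the origin. -/
def R : Set (ℝ × ℝ) :=
  {z | -ee q < z.1 ∧ z.1 < 0 ∧ 0 < z.1 - z.2 ∧ z.1 - z.2 < KK q * z.1 ^ 2}

lemma R_open : IsOpen (R q) := by
  have c1 : Continuous fun z : ℝ × ℝ => z.1 := continuous_fst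
  have c2 : Continuous fun z : ℝ × ℝ => z.1 - z.2 := continuous_fst.sub continuous_snd
  have c3 : Continuous fun z : ℝ × ℝ => KK q * z.1 ^ 2 := by fun_prop
  exact (isOpen_lt continuous_const c1).inter ((isOpen_lt c1 continuous_const).inter
    ((isOpen_lt continuous_const c2).inter (isOpen_lt c2 c3)))

lemma R_nonempty : (R q).Nonempty := by
  have he := ee_pos q
  have hK := KK_ge q
  refine ⟨(-(ee q / 2), -(ee q / 2) - KK q * (ee q / 2) ^ 2 / 2), ?_⟩
  have h1 : 0 < KK q * (ee q / 2) ^ 2 := by positivity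
  refine ⟨?_, ?_, ?_, ?_⟩
  · simp only; linarith
  · simp only; linarith
  · simp only; linarith
  · simp only
    have : KK q * (-(ee q / 2)) ^ 2 = KK q * (ee q / 2) ^ 2 := by ring
    rw [this]
    linarith

lemma P_near {x : ℝ} (h1 : -ee q < x) (h2 : x < 0) :
    (1 + q.b) * x + 20 * x ^ 2 ≤ P q x ∧ P q x ≤ (1 + q.b) * x + 25 * x ^ 2 := by
  have hb0 := q.hb0
  have hb1 := q.hb1
  have he := ee_le q
  have hm := q.hm
  have hx : -(1 / 200) < x := by linarith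
  have hx2 : 0 ≤ x ^ 2 := sq_nonneg x
  obtain ⟨t, ht⟩ : ∃ t, t = tt q x := ⟨_, rfl⟩
  have hP : P q x = (1 + q.b) * x + (23 - q.b - 24 * x) * x ^ 2 + t := by
    rw [P_eq, ht]; ring
  have htb : |t| ≤ 201 / 200 * x ^ 2 := by
    rw [ht]
    unfold tt
    rw [abs_div, abs_mul, abs_pow]
    have e1 : |((q.m : ℝ) + 1)| = q.m + 1 := abs_of_pos (by positivity)
    have e2 : |1 - x| ≤ 201 / 200 := by rw [abs_of_pos (by linarith)]; linarith
    have e3 : |x| ≤ 1 := by rw [abs_of_neg h2]; linarith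
    have e4 : |x| ^ (q.m + 1) ≤ |x| ^ 2 := pow_le_pow_of_le_one (abs_nonneg x) e3 (by omega)
    rw [sq_abs] at e4
    rw [e1, div_le_iff₀ (by positivity)]
    have e5 : |x| ^ (q.m + 1) * |1 - x| ≤ x ^ 2 * (201 / 200) :=
      mul_le_mul e4 e2 (abs_nonneg _) hx2
    have e6 : 201 / 200 * x ^ 2 ≤ 201 / 200 * x ^ 2 * (q.m + 1) := by
      apply le_mul_of_one_le_right (by positivity)
      have : (0 : ℝ) ≤ q.m := Nat.cast_nonneg _
      linarith
    linarith
  rw [abs_le] at htb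
  rw [hP]
  have h3 : 22 * x ^ 2 ≤ (23 - q.b - 24 * x) * x ^ 2 :=
    mul_le_mul_of_nonneg_right (by linarith) hx2
  have h4 : (23 - q.b - 24 * x) * x ^ 2 ≤ (23 + 12 / 100) * x ^ 2 :=
    mul_le_mul_of_nonneg_right (by linarith) hx2
  constructor
  · linarith [htb.1]
  · linarith [htb.2]

lemma R_tendsto {z : ℝ × ℝ} (hz : z ∈ R q) :
    Tendsto (fun n : ℕ => (f q)^[n] z) atTop (𝓝 (0, 0)) := by
  obtain ⟨h1, h2, h3, h4⟩ := hz
  have e1 : ∀ n, ((f q)^[n + 1] z).2 = ((f q)^[n] z).1 := fun n => by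
    rw [Function.iterate_succ_apply', f_apply]
  have e2 : ∀ n, ((f q)^[n + 1] z).1 = P q ((f q)^[n] z).1 - q.b * ((f q)^[n] z).2 := fun n => by
    rw [Function.iterate_succ_apply', f_apply]
  have e0 : ((f q)^[0 + 1] z).2 = z.1 := by rw [e1]; rfl
  have ht := trap q.hb0 q.hb1 (A := 20) (B := 25) (K := KK q) (e := ee q) (by norm_num)
    (by norm_num) rfl rfl (fun _ => P q) (fun _ x g1 g2 => P_near q g1 g2)
    (fun n => ((f q)^[n] z).2) (fun n => by
      show ((f q)^[n + 1 + 1] z).2 = P q ((f q)^[n + 1] z).2 - q.b * ((f q)^[n] z).2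
      rw [e1 (n + 1), e2, e1]) (by show -ee q < ((f q)^[0 + 1] z).2; rw [e0]; exact h1)
      (by show ((f q)^[0 + 1] z).2 < 0; rw [e0]; exact h2)
      (by show 0 < ((f q)^[0 + 1] z).2 - z.2; rw [e0]; exact h3)
      (by show ((f q)^[0 + 1] z).2 - z.2 < KK q * ((f q)^[0 + 1] z).2 ^ 2; rw [e0]; exact h4)
  have ht2 : Tendsto (fun n : ℕ => ((f q)^[n] z).1) atTop (𝓝 0) := by
    refine ((tendsto_add_atTop_iff_nat 1).2 ht.2).congr fun n => ?_
    exact e1 n
  exact ht2.prodMk_nhds ht.2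

/-- Orbits converging to a point of `Λ` are in the basin of `Λ`. -/
lemma mem_basin_of_tendsto {F : ℝ × ℝ → ℝ × ℝ} {Λ : Set (ℝ × ℝ)} {z w : ℝ × ℝ} (hw : w ∈ Λ)
    (ht : Tendsto (fun n : ℕ => F^[n] z) atTop (𝓝 w)) : z ∈ basin F Λ := by
  refine ⟨⟨w, ht.mapClusterPt⟩, ?_⟩
  intro u hu
  have hu' : MapClusterPt u atTop (fun n : ℕ => F^[n] z) := hu
  have : u = w := by
    by_contra hne
    have hw2 : (𝓝 u ⊓ map (fun n : ℕ => F^[n] z) atTop).NeBot := hu'
    exact (disjoint_nhds_nhds.2 hne).mono_right ht |>.eq_bot ▸ hw2 |>.ne rfl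
  rwa [this]

lemma R_basin (N : ℕ) : R q ⊆ basin (f q) (L q N) := fun _ hz =>
  mem_basin_of_tendsto (zero_mem q N) (R_tendsto q hz)

/-- The positive Jacobian half of the theorem. -/
theorem positive_half (b : ℝ) (hb0 : 0 < b) (hb1 : b < 1) (d : ℕ) (hd : 3 ≤ d) :
    ∃ (p : Polynomial ℝ) (Λ : ℕ → Set (ℝ × ℝ)) (U : Set (ℝ × ℝ)), p.natDegree = d ∧
      (∀ N, IsWildAttractor (henon p b) (Λ N) ∧ IsTransitiveSet (henon p b) (Λ N) ∧
        Λ (N + 1) ⊂ Λ N ∧ U ⊆ basin (henon p b) (Λ N)) ∧ IsOpen U ∧ U.Nonempty := by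
  obtain ⟨m, rfl⟩ : ∃ m, d = m + 2 := ⟨d - 2, by omega⟩
  let q : Par := ⟨b, m, hb0, hb1, by omega⟩
  refine ⟨poly q, fun N => L q (N + 1), R q, poly_natDegree q, fun N => ⟨⟨L_cantor q (N + 1),
    (L_transitive q (N + 1)).2.1, ?_, L q N, L_transitive q N, L_ssubset q N⟩,
    L_transitive q (N + 1), L_ssubset q (N + 1), R_basin q (N + 1)⟩, R_open q, R_nonempty q⟩
  exact ((R_open q).measure_pos volume (R_nonempty q)).trans_le (measure_mono (R_basin q _))

end

end Pool.Agent.KS6_66.WA
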