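import Pool.Agent.KS6_66.WA.Poly

/-! Orbits with prescribed itineraries; transitive Cantor sets of orbits. The method is that of the
library file `WildAttractor` of this problem (one cubic, Jacobian `1/2`). -/

set_option autoImplicit false

namespace Pool.Agent.KS6_66.WA

open Set Filter Topology MeasureTheory

noncomputable section

variable (q : Par)

/-- The inverse branches. -/
def g (i : Bool) (u : ℝ) : ℝ :=
  if h : 0 ≤ u ∧ u ≤ 1 + q.b then (exists_branch q i u h.1 h.2).choose else
    (exists_branch q i 0 le_rfl (by linarith [q.hb0])).choose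

lemma g_mem (i : Bool) (u : ℝ) : g q i u ∈ I i := by
  unfold g
  split_ifs with h
  · exact (exists_branch q i u h.1 h.2).choose_spec.1
  · exact (exists_branch q i 0 le_rfl (by linarith [q.hb0])).choose_spec.1

lemma P_g (i : Bool) (u : ℝ) (h0 : 0 ≤ u) (h1 : u ≤ 1 + q.b) : P q (g q i u) = u := by
  unfold g
  rw [dif_pos ⟨h0, h1⟩]
  exact (exists_branch q i u h0 h1).choose_spec.2

/-! ### Orbits with a prescribed itinerary -/

/-- `x` is a full orbit with itinerary `s`. -/
def Sol (s : ℤ → Bool) (x : ℤ → ℝ) : Prop :=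
  ∀ n, x n ∈ I (s n) ∧ P q (x n) = x (n + 1) + q.b * x (n - 1)

lemma diff_bound {a b c d D : ℝ} (h1 : |a - b| ≤ D) (h2 : |c - d| ≤ D) :
    |(a + q.b * c) - (b + q.b * d)| ≤ (1 + q.b) * D := by
  have hb := q.hb0
  calc |(a + q.b * c) - (b + q.b * d)| = |(a - b) + q.b * (c - d)| := by congr 1; ring
    _ ≤ |a - b| + |q.b * (c - d)| := abs_add_le _ _
    _ = |a - b| + q.b * |c - d| := by rw [abs_mul, abs_of_pos hb]
    _ ≤ D + q.b * D := add_le_add h1 (mul_le_mul_of_nonneg_left h2 hb.le)
    _ = (1 + q.b) * D := by ring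

lemma compare {s s' : ℤ → Bool} {x x' : ℤ → ℝ} (hx : Sol q s x) (hx' : Sol q s' x') :
    ∀ (k : ℕ) (n : ℤ), (∀ m : ℤ, |m - n| < k → s m = s' m) → |x n - x' n| ≤ 1 / ((k : ℝ) + 1) := by
  intro k
  induction k with
  | zero =>
    intro n _
    have h1 := I_sub _ (hx n).1
    have h2 := I_sub _ (hx' n).1
    rw [abs_le]
    norm_num
    constructor <;> linarith [h1.1, h1.2, h2.1, h2.2]
  | succ k ih =>
    intro n hn
    have hs : s n = s' n := hn n (by push_cast; simp)
    have i1 := ih (n + 1) (fun m hm => hn m (by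
      rw [abs_lt] at *; push_cast; constructor <;> linarith [hm.1, hm.2]))
    have i2 := ih (n - 1) (fun m hm => hn m (by
      rw [abs_lt] at *; push_cast; constructor <;> linarith [hm.1, hm.2]))
    have hb := diff_bound q i1 i2
    rw [← (hx n).2, ← (hx' n).2] at hb
    have h3 := step_bound q (s n) k (hx n).1 (by rw [hs]; exact (hx' n).1) hb le_rfl
    push_cast
    rw [show (k : ℝ) + 1 + 1 = k + 2 by ring]
    exact h3

lemma sol_unique {s : ℤ → Bool} {x x' : ℤ → ℝ} (hx : Sol q s x) (hx' : Sol q s x') :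
    x = x' := by
  funext n
  have h : ∀ k : ℕ, |x n - x' n| ≤ 1 / ((k : ℝ) + 1) :=
    fun k => compare q hx hx' k n (fun _ _ => rfl)
  have h2 : |x n - x' n| ≤ 0 := ge_of_tendsto' tendsto_one_div_add_atTop_nhds_zero_nat h
  have h3 : x n - x' n = 0 := abs_eq_zero.1 (le_antisymm h2 (abs_nonneg _))
  linarith

/-- Approximate orbits with a prescribed itinerary. -/
def approx (s : ℤ → Bool) : ℕ → ℤ → ℝ
  | 0 => fun _ => 0
  | k + 1 => fun n => g q (s n) (approx s k (n + 1) + q.b * approx s k (n - 1))

lemma approx_mem (s : ℤ → Bool) (k : ℕ) (n : ℤ) : 0 ≤ approx q s k n ∧ approx q s k n ≤ 1 := by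
  cases k with
  | zero => simp [approx]
  | succ k => exact I_sub _ (g_mem _ _ _)

lemma approx_sum (s : ℤ → Bool) (k : ℕ) (n : ℤ) :
    0 ≤ approx q s k (n + 1) + q.b * approx q s k (n - 1) ∧
      approx q s k (n + 1) + q.b * approx q s k (n - 1) ≤ 1 + q.b := by
  have h1 := approx_mem q s k (n + 1)
  have h2 := approx_mem q s k (n - 1)
  have hb := q.hb0
  have h3 := mul_nonneg hb.le h2.1
  have h4 : q.b * approx q s k (n - 1) ≤ q.b * 1 := mul_le_mul_of_nonneg_left h2.2 hb.le
  constructor <;> linarith [h1.1, h1.2]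

lemma approx_bound (s : ℤ → Bool) (j : ℕ) : ∀ (k : ℕ) (n : ℤ),
    |approx q s (k + j) n - approx q s k n| ≤ 1 / ((k : ℝ) + 1) := by
  intro k
  induction k with
  | zero =>
    intro n
    have h1 := approx_mem q s (0 + j) n
    have h2 := approx_mem q s 0 n
    rw [abs_le]
    norm_num at *
    constructor <;> linarith [h1.1, h1.2, h2.1, h2.2]
  | succ k ih =>
    intro n
    have hb := diff_bound q (ih (n + 1)) (ih (n - 1))
    have e1 := approx_sum q s (k + j) n
    have e2 := approx_sum q s k n
    have hb2 : |P q (approx q s (k + 1 + j) n) - P q (approx q s (k + 1) n)| ≤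
        (1 + q.b) * (1 / ((k : ℝ) + 1)) := by
      have e3 : k + 1 + j = (k + j) + 1 := by ring
      rw [e3]
      show |P q (g q (s n) _) - P q (g q (s n) _)| ≤ _
      rw [P_g _ _ _ e1.1 e1.2, P_g _ _ _ e2.1 e2.2]
      exact hb
    have m1 : approx q s (k + 1 + j) n ∈ I (s n) := by
      have e3 : k + 1 + j = (k + j) + 1 := by ring
      rw [e3]
      exact g_mem _ _ _
    have h3 := step_bound q (s n) k m1 (g_mem _ _ _ : approx q s (k + 1) n ∈ I (s n)) hb2 le_rfl
    push_cast
    rw [show (k : ℝ) + 1 + 1 = k + 2 by ring]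
    exact h3

lemma I_closed (i : Bool) : IsClosed (I i) := by
  cases i
  · simp only [I, Bool.false_eq_true, if_false]; exact isClosed_Icc
  · simp only [I, if_true]; exact isClosed_Icc

lemma exists_sol (s : ℤ → Bool) : ∃ x, Sol q s x := by
  have hc : ∀ n, ∃ l, Tendsto (fun k => approx q s k n) atTop (𝓝 l) := by
    intro n
    apply cauchySeq_tendsto_of_complete
    apply Metric.cauchySeq_iff'.2
    intro ε hε
    obtain ⟨N, hN⟩ := exists_nat_one_div_lt hε
    refine ⟨N, fun m hm => ?_⟩
    obtain ⟨j, rfl⟩ := Nat.exists_eq_add_of_le hm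
    rw [Real.dist_eq]
    exact (approx_bound q s j N n).trans_lt hN
  choose x hx using hc
  refine ⟨x, fun n => ⟨?_, ?_⟩⟩
  · refine (I_closed (s n)).mem_of_tendsto (hx n) ?_
    filter_upwards [eventually_ge_atTop 1] with k hk
    obtain ⟨j, rfl⟩ := Nat.exists_eq_add_of_le' hk
    exact g_mem _ _ _
  · have h1 : Tendsto (fun k => P q (approx q s (k + 1) n)) atTop (𝓝 (P q (x n))) :=
      ((P_continuous q).tendsto _).comp ((hx n).comp (tendsto_add_atTop_nat 1))
    have h2 : Tendsto (fun k => approx q s k (n + 1) + q.b * approx q s k (n - 1)) atTop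
        (𝓝 (x (n + 1) + q.b * x (n - 1))) := (hx (n + 1)).add ((hx (n - 1)).const_mul q.b)
    refine tendsto_nhds_unique h1 (h2.congr fun k => ?_)
    have e2 := approx_sum q s k n
    exact (P_g _ _ _ e2.1 e2.2).symm

/-- The orbit with itinerary `s`. -/
def X (s : ℤ → Bool) : ℤ → ℝ := (exists_sol q s).choose

lemma X_sol (s : ℤ → Bool) : Sol q s (X q s) := (exists_sol q s).choose_spec

/-- The shift. -/
def shift (s : ℤ → Bool) : ℤ → Bool := fun n => s (n + 1)

lemma X_shift (s : ℤ → Bool) (n : ℤ) : X q (shift s) n = X q s (n + 1) := by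
  have h : Sol q (shift s) (fun n => X q s (n + 1)) := by
    intro m
    have := X_sol q s (m + 1)
    refine ⟨this.1, ?_⟩
    have h2 := this.2
    rw [show m + 1 - 1 = m by ring] at h2
    show P q (X q s (m + 1)) = X q s (m + 1 + 1) + q.b * X q s (m - 1 + 1)
    rw [h2, show m - 1 + 1 = m by ring]
  exact congrFun (sol_unique q (X_sol q _) h) n

/-- The coding map. -/
def code (s : ℤ → Bool) : ℝ × ℝ := (X q s 0, X q s (-1))

/-- The Henon map. -/
def f : ℝ × ℝ → ℝ × ℝ := henon (poly q) q.b

lemma f_apply (z : ℝ × ℝ) : f q z = (P q z.1 - q.b * z.2, z.1) := by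
  unfold f henon
  rw [poly_eval]

lemma f_code (s : ℤ → Bool) : f q (code q s) = code q (shift s) := by
  rw [f_apply]
  unfold code
  have h := (X_sol q s 0).2
  rw [X_shift, X_shift]
  norm_num at h ⊢
  linarith

lemma code_continuous : Continuous (code q) := by
  have h : ∀ n, Continuous fun s => X q s n := by
    intro n
    rw [continuous_iff_continuousAt]
    intro s
    rw [ContinuousAt, Metric.tendsto_nhds]
    intro ε hε
    obtain ⟨k, hk⟩ := exists_nat_one_div_lt hε
    have h1 : ∀ᶠ s' in 𝓝 s, ∀ m ∈ Finset.Icc (n - k) (n + k), s' m = s m := by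
      rw [Filter.eventually_all_finset]
      intro m _
      exact (continuous_apply m).continuousAt.eventually
        ((isOpen_discrete {s m}).mem_nhds (mem_singleton _))
    filter_upwards [h1] with s' hs'
    rw [Real.dist_eq]
    refine (compare q (X_sol q s') (X_sol q s) k n (fun m hm => hs' m ?_)).trans_lt hk
    rw [abs_lt] at hm
    rw [Finset.mem_Icc]
    constructor <;> linarith [hm.1, hm.2]
  exact (h 0).prodMk (h (-1))

lemma I_disjoint {i j : Bool} {x : ℝ} (h1 : x ∈ I i) (h2 : x ∈ I j) : i = j := by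
  cases i <;> cases j <;> simp only [I, Bool.false_eq_true, if_false, if_true, mem_Icc] at h1 h2
  · rfl
  · linarith [h1.2, h2.1]
  · linarith [h2.2, h1.1]
  · rfl

lemma code_injective : Function.Injective (code q) := by
  intro s s' h
  have hb := q.hb0
  have h0 : X q s 0 = X q s' 0 ∧ X q s (-1) = X q s' (-1) := by
    unfold code at h
    exact Prod.mk.inj h
  have key : ∀ n : ℤ, X q s n = X q s' n ∧ X q s (n - 1) = X q s' (n - 1) := by
    intro n
    induction n using Int.induction_on with
    | zero => simpa using h0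
    | succ n ih =>
      have e1 := (X_sol q s n).2
      have e2 := (X_sol q s' n).2
      rw [ih.1, ih.2] at e1
      constructor
      · linarith
      · rw [show (n : ℤ) + 1 - 1 = n by ring]; exact ih.1
    | pred n ih =>
      have e1 := (X_sol q s (-n - 1)).2
      have e2 := (X_sol q s' (-n - 1)).2
      rw [show -(n : ℤ) - 1 + 1 = -n by ring] at e1 e2
      rw [ih.1, ih.2] at e1
      refine ⟨ih.2, ?_⟩
      have e3 : q.b * X q s (-n - 1 - 1) = q.b * X q s' (-n - 1 - 1) := by linarith
      exact mul_left_cancel₀ hb.ne' e3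
  funext n
  have h1 := (X_sol q s n).1
  have h2 := (X_sol q s' n).1
  rw [(key n).1] at h1
  exact I_disjoint h1 h2

lemma code_embedding : Topology.IsClosedEmbedding (code q) :=
  (code_continuous q).isClosedEmbedding (code_injective q)

lemma shift_surjective : Function.Surjective shift := fun s =>
  ⟨fun n => s (n - 1), by funext n; simp [shift]⟩

lemma shift_iter (s : ℤ → Bool) (n : ℕ) (m : ℤ) : shift^[n] s m = s (m + n) := by
  induction n generalizing s with
  | zero => simp
  | succ n ih =>
    rw [Function.iterate_succ_apply, ih]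
    unfold shift
    congr 1
    push_cast
    ring

/-! ### A dense orbit of the shift -/

/-- A sequence that contains all finite words arbitrarily far to the right. -/
def dens : ℤ → Bool := fun q =>
  Nat.testBit (Nat.unpair (Nat.sqrt q.toNat)).1 (q.toNat - (Nat.sqrt q.toNat) ^ 2)

lemma dens_spec (t : ℤ → Bool) (k N : ℕ) :
    ∃ n : ℕ, N ≤ n ∧ ∀ m : ℤ, |m| ≤ k → dens (m + n) = t m := by
  set W : ℕ := Nat.ofBits (fun i : Fin (2 * k + 1) => t ((i : ℤ) - k)) with hW
  set j : ℕ := Nat.pair W (N + 2 * k) with hj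
  have hjN : N + 2 * k ≤ j := Nat.right_le_pair _ _
  refine ⟨j * j + k, ?_, ?_⟩
  · nlinarith
  · intro m hm
    rw [abs_le] at hm
    obtain ⟨i, hi⟩ : ∃ i : ℕ, (i : ℤ) = m + k := ⟨(m + k).toNat, by omega⟩
    have hi2 : i < 2 * k + 1 := by omega
    have e1 : (m + ((j * j + k : ℕ) : ℤ)).toNat = j * j + i := by
      have : (m + ((j * j + k : ℕ) : ℤ)) = ((j * j + i : ℕ) : ℤ) := by
        push_cast
        linarith
      rw [this]
      exact Int.toNat_natCast _
    unfold dens
    rw [e1, Nat.sqrt_add_eq _ (by omega), hj, Nat.unpair_pair]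
    have e2 : Nat.pair W (N + 2 * k) * Nat.pair W (N + 2 * k) + i -
        Nat.pair W (N + 2 * k) ^ 2 = i := by
      rw [sq]
      omega
    simp only [e2]
    rw [hW, Nat.testBit_ofBits_lt _ _ hi2]
    congr 1
    simp only
    omega

lemma dens_cluster (t : ℤ → Bool) : MapClusterPt t atTop (fun n : ℕ => shift^[n] dens) := by
  rw [mapClusterPt_iff_frequently]
  intro U hU
  obtain ⟨k, hk⟩ : ∃ k : ℕ, ∀ t' : ℤ → Bool, (∀ m : ℤ, |m| ≤ k → t' m = t m) → t' ∈ U := by
    by_contra hcon
    push Not at hcon
    choose u hu1 hu2 using hcon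
    have h1 : Tendsto u atTop (𝓝 t) := by
      rw [tendsto_pi_nhds]
      intro m
      refine tendsto_const_nhds.congr' ?_
      filter_upwards [eventually_ge_atTop m.natAbs] with k hk
      rw [hu1 k m (by rw [Int.abs_eq_natAbs]; exact_mod_cast hk)]
    obtain ⟨k, hk⟩ := (h1.eventually hU).exists
    exact hu2 k hk
  rw [frequently_atTop]
  intro N
  obtain ⟨n, hn, hm⟩ := dens_spec t k N
  exact ⟨n, hn, hk _ (fun m hm' => by rw [shift_iter]; exact hm m hm')⟩

/-- A factor of the full shift which is again a set of orbits of `f` is transitive. -/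
lemma transitive_of_factor (F : (ℤ → Bool) → ℤ → Bool) (hF : Continuous F)
    (hsh : ∀ s, shift (F s) = F (shift s)) :
    IsTransitiveSet (f q) (range fun s => code q (F s)) := by
  have hc : Continuous fun s => code q (F s) := (code_continuous q).comp hF
  have hK : IsCompact (range fun s => code q (F s)) := isCompact_range hc
  have hf : ∀ s, f q (code q (F s)) = code q (F (shift s)) := fun s => by rw [f_code, hsh]
  have hit : ∀ (n : ℕ) (s : ℤ → Bool),
      (f q)^[n] (code q (F s)) = code q (F (shift^[n] s)) := by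
    intro n
    induction n with
    | zero => intro s; rfl
    | succ n ih => intro s; rw [Function.iterate_succ_apply, hf, ih, Function.iterate_succ_apply]
  refine ⟨hK, ?_, code q (F dens), ⟨dens, rfl⟩, ?_⟩
  · ext z
    constructor
    · rintro ⟨_, ⟨s, rfl⟩, rfl⟩
      exact ⟨shift s, (hf s).symm⟩
    · rintro ⟨s, rfl⟩
      obtain ⟨s', rfl⟩ := shift_surjective s
      exact ⟨code q (F s'), ⟨s', rfl⟩, hf s'⟩
  · apply Subset.antisymm
    · intro w hw
      have hw' : MapClusterPt w atTop (fun n : ℕ => (f q)^[n] (code q (F dens))) := hw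
      by_contra hcon
      rw [mapClusterPt_iff_frequently] at hw'
      have h1 := hw' _ (hK.isClosed.isOpen_compl.mem_nhds hcon)
      obtain ⟨n, hn⟩ := h1.exists
      exact hn (by rw [hit]; exact ⟨_, rfl⟩)
    · rintro _ ⟨t, rfl⟩
      show MapClusterPt (code q (F t)) atTop (fun n : ℕ => (f q)^[n] (code q (F dens)))
      have h1 := (dens_cluster t).continuousAt_comp (hc.continuousAt (x := t))
      have h2 : ((fun s => code q (F s)) ∘ fun n : ℕ => shift^[n] dens) =
          fun n : ℕ => (f q)^[n] (code q (F dens)) := by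
        funext n
        rw [Function.comp_apply, hit]
      rwa [h2] at h1

/-! ### The Cantor sets -/

/-- The sequences in which any two places with the value `true` have distance larger than `N`. -/
def S (N : ℕ) : Set (ℤ → Bool) :=
  {s | ∀ n : ℤ, ∀ j : ℕ, 1 ≤ j → j ≤ N → ¬ (s n = true ∧ s (n + j) = true)}

lemma S_closed (N : ℕ) : IsClosed (S N) := by
  have h : S N = ⋂ (n : ℤ) (j : ℕ) (_ : 1 ≤ j) (_ : j ≤ N),
      {s | ¬ (s n = true ∧ s (n + j) = true)} := by
    ext s
    simp [S]
  rw [h]
  refine isClosed_iInter fun n => isClosed_iInter fun j => isClosed_iInter fun _ =>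
    isClosed_iInter fun _ => ?_
  have hc : Continuous fun s : ℤ → Bool => (s n, s (n + j)) :=
    (continuous_apply n).prodMk (continuous_apply (n + (j : ℤ)))
  have : {s : ℤ → Bool | ¬ (s n = true ∧ s (n + j) = true)} =
      (fun s : ℤ → Bool => (s n, s (n + j))) ⁻¹' {q | ¬ (q.1 = true ∧ q.2 = true)} := rfl
  rw [this]
  exact (isClosed_discrete _).preimage hc

/-- The invariant Cantor sets. -/
def L (N : ℕ) : Set (ℝ × ℝ) := code q '' S N

lemma L_compact (N : ℕ) : IsCompact (L q N) :=
  (S_closed N).isCompact.image (code_continuous q)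

/-- no value `true` at the `N` places before `n` -/
def clear (N : ℕ) (s : ℤ → Bool) (n : ℤ) : Bool :=
  (List.range N).all fun j => !(s (n - (j + 1 : ℕ)))

lemma clear_iff (N : ℕ) (s : ℤ → Bool) (n : ℤ) :
    clear N s n = true ↔ ∀ j : ℕ, 1 ≤ j → j ≤ N → s (n - j) = false := by
  unfold clear
  rw [List.all_eq_true]
  constructor
  · intro h j h1 h2
    have := h (j - 1) (List.mem_range.2 (by omega))
    rw [show j - 1 + 1 = j by omega] at this
    simpa using this
  · intro h j hj
    have := h (j + 1) (by omega) (by have := List.mem_range.1 hj; omega)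
    simp only [this, Bool.not_false]

/-- A retraction of the full shift onto `S N`. -/
def retr (N : ℕ) (s : ℤ → Bool) : ℤ → Bool := fun n => s n && clear N s n

lemma clear_continuous (N : ℕ) (n : ℤ) : Continuous fun s : ℤ → Bool => clear N s n := by
  unfold clear
  induction N with
  | zero => simpa using continuous_const
  | succ N ih =>
    have h : (fun s : ℤ → Bool => (List.range (N + 1)).all fun j => !(s (n - (j + 1 : ℕ)))) =
        fun s => ((List.range N).all fun j => !(s (n - (j + 1 : ℕ)))) &&
          !(s (n - (N + 1 : ℕ))) := by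
      funext s
      rw [List.range_succ, List.all_append]
      simp
    rw [h]
    exact (continuous_of_discreteTopology (f := fun p : Bool × Bool => p.1 && !p.2)).comp
      (ih.prodMk (continuous_apply (n - ((N + 1 : ℕ) : ℤ))))

lemma retr_continuous (N : ℕ) : Continuous (retr N) := by
  refine continuous_pi fun n => ?_
  exact (continuous_of_discreteTopology (f := fun p : Bool × Bool => p.1 && p.2)).comp
    ((continuous_apply n).prodMk (clear_continuous N n))

lemma retr_shift (N : ℕ) (s : ℤ → Bool) : shift (retr N s) = retr N (shift s) := by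
  funext n
  have h : clear N s (n + 1) = clear N (shift s) n := by
    rw [Bool.eq_iff_iff, clear_iff, clear_iff]
    constructor
    · intro h j h1 h2
      have := h j h1 h2
      show s (n - j + 1) = false
      rwa [show n - (j : ℤ) + 1 = n + 1 - j by ring]
    · intro h j h1 h2
      have : s (n - j + 1) = false := h j h1 h2
      rwa [show n + 1 - (j : ℤ) = n - j + 1 by ring]
  show (s (n + 1) && clear N s (n + 1)) = (s (n + 1) && clear N (shift s) n)
  rw [h]

lemma retr_mem (N : ℕ) (s : ℤ → Bool) : retr N s ∈ S N := by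
  rintro n j h1 h2 ⟨h3, h4⟩
  simp only [retr, Bool.and_eq_true] at h3 h4
  have h5 := (clear_iff N s _).1 h4.2 j h1 h2
  rw [show n + (j : ℤ) - j = n by ring, h3.1] at h5
  exact absurd h5 (by decide)

lemma retr_of_mem (N : ℕ) {s : ℤ → Bool} (hs : s ∈ S N) : retr N s = s := by
  funext n
  rw [Bool.eq_iff_iff]
  simp only [retr, Bool.and_eq_true]
  constructor
  · exact fun h => h.1
  · intro h
    refine ⟨h, (clear_iff N s n).2 fun j h1 h2 => ?_⟩
    have := hs (n - j) j h1 h2
    rw [show n - (j : ℤ) + j = n by ring] at this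
    rcases Bool.eq_false_or_eq_true (s (n - j)) with h' | h'
    · exact absurd ⟨h', h⟩ this
    · exact h'

lemma L_eq (N : ℕ) : L q N = range fun s => code q (retr N s) := by
  ext z
  constructor
  · rintro ⟨s, hs, rfl⟩
    exact ⟨s, by simp only [retr_of_mem N hs]⟩
  · rintro ⟨s, rfl⟩
    exact ⟨retr N s, retr_mem N s, rfl⟩

lemma L_transitive (N : ℕ) : IsTransitiveSet (f q) (L q N) := by
  rw [L_eq]
  exact transitive_of_factor q (retr N) (retr_continuous N) (retr_shift N)

lemma L_perfect (N : ℕ) : Perfect (L q N) := by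
  refine ⟨(L_compact q N).isClosed, ?_⟩
  rintro _ ⟨s, hs, rfl⟩
  rw [accPt_iff_nhds]
  intro U hU
  -- cut `s` after position `k`
  let A : ℕ → ℤ → Bool := fun k n => if n ≤ k then s n else false
  let B : ℕ → ℤ → Bool := fun k n => if n ≤ k then s n else decide (n = k + N + 1)
  have hA : ∀ k, A k ∈ S N := by
    rintro k n j h1 h2 ⟨h3, h4⟩
    simp only [A] at h3 h4
    have := hs n j h1 h2
    split_ifs at h3 h4 <;> simp_all
  have hB : ∀ k, B k ∈ S N := by
    rintro k n j h1 h2 ⟨h3, h4⟩
    simp only [B] at h3 h4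
    have := hs n j h1 h2
    split_ifs at h3 h4 with h5 h6 h6
    · exact this ⟨h3, h4⟩
    · simp only [decide_eq_true_eq] at h4
      omega
    · omega
    · simp only [decide_eq_true_eq] at h3 h4
      omega
  have tA : Tendsto A atTop (𝓝 s) := by
    rw [tendsto_pi_nhds]
    intro m
    refine tendsto_const_nhds.congr' ?_
    filter_upwards [eventually_ge_atTop m.natAbs] with k hk
    simp only [A]
    rw [if_pos (by omega)]
  have tB : Tendsto B atTop (𝓝 s) := by
    rw [tendsto_pi_nhds]
    intro m
    refine tendsto_const_nhds.congr' ?_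
    filter_upwards [eventually_ge_atTop m.natAbs] with k hk
    simp only [B]
    rw [if_pos (by omega)]
  have hU' : code q ⁻¹' U ∈ 𝓝 s := (code_continuous q).continuousAt.preimage_mem_nhds hU
  obtain ⟨k, hk1, hk2⟩ := ((tA.eventually hU').and (tB.eventually hU')).exists
  have hAB : A k ≠ B k := by
    intro h
    have := congrFun h (k + N + 1)
    simp only [A, B] at this
    rw [if_neg (by omega), if_neg (by omega)] at this
    simp at this
  by_cases hAs : A k = s
  · have hBs : B k ≠ s := fun h => hAB (hAs.trans h.symm)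
    exact ⟨code q (B k), ⟨hk2, _, hB k, rfl⟩, fun h => hBs (code_injective q h)⟩
  · exact ⟨code q (A k), ⟨hk1, _, hA k, rfl⟩, fun h => hAs (code_injective q h)⟩

lemma L_totDisc (N : ℕ) : IsTotallyDisconnected (L q N) := by
  unfold L
  rw [(code_embedding q).isEmbedding.isTotallyDisconnected_image]
  exact isTotallyDisconnected_of_totallyDisconnectedSpace (S N)

lemma L_ssubset (N : ℕ) : L q (N + 1) ⊂ L q N := by
  refine ⟨?_, ?_⟩
  · rintro _ ⟨s, hs, rfl⟩
    exact ⟨s, fun n j h1 h2 => hs n j h1 (by omega), rfl⟩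
  · intro h
    let u : ℤ → Bool := fun n => decide (n = 0 ∨ n = N + 1)
    have hu : u ∈ S N := by
      rintro n j h1 h2 ⟨h3, h4⟩
      simp only [u, decide_eq_true_eq] at h3 h4
      omega
    obtain ⟨s, hs, hs'⟩ := h ⟨u, hu, rfl⟩
    have := code_injective q hs'
    subst this
    refine hs 0 (N + 1) (by omega) le_rfl ⟨?_, ?_⟩
    · simp [u]
    · simp [u]

lemma zero_mem (N : ℕ) : ((0 : ℝ), (0 : ℝ)) ∈ L q N := by
  refine ⟨fun _ => false, fun n => by simp, ?_⟩
  have h : Sol q (fun _ => false) (fun _ => 0) := by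
    intro n
    constructor
    · simp only [I, Bool.false_eq_true, if_false, mem_Icc]
      norm_num
    · rw [P_zero]; ring
  have h2 := sol_unique q (X_sol q (fun _ => false)) h
  unfold code
  rw [h2]

lemma L_cantor (N : ℕ) : IsCantorSet (L q N) :=
  ⟨⟨_, zero_mem q N⟩, L_compact q N, L_perfect q N, L_totDisc q N⟩

end

end Pool.Agent.KS6_66.WA
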