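import Mathlib

/-! Definitions for the results on wild attractors of real Henon maps. -/

set_option autoImplicit false

namespace Pool.Agent.KS6_66.WA

open Set Filter Topology MeasureTheory

noncomputable section

/-- The real Henon map `(x, y) ↦ (p(x) - b y, x)` of the plane. -/
def henon (p : Polynomial ℝ) (b : ℝ) (z : ℝ × ℝ) : ℝ × ℝ := (p.eval z.1 - b * z.2, z.1)

/-- The `ω`-limit set of the forward orbit of `z` under `f`: the cluster points of `f^n(z)`. -/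
def omega (f : ℝ × ℝ → ℝ × ℝ) (z : ℝ × ℝ) : Set (ℝ × ℝ) :=
  {w | MapClusterPt w atTop (fun n : ℕ => f^[n] z)}

/-- The basin of `Λ`. -/
def basin (f : ℝ × ℝ → ℝ × ℝ) (Λ : Set (ℝ × ℝ)) : Set (ℝ × ℝ) :=
  {z | (omega f z).Nonempty ∧ omega f z ⊆ Λ}

/-- Transitive compact sets: `f(T) = T` and some `z ∈ T` has `ω(z) = T`. -/
def IsTransitiveSet (f : ℝ × ℝ → ℝ × ℝ) (T : Set (ℝ × ℝ)) : Prop :=
  IsCompact T ∧ f '' T = T ∧ ∃ z ∈ T, omega f z = T

/-- Cantor sets: nonempty, compact, perfect, totally disconnected. -/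
def IsCantorSet (Λ : Set (ℝ × ℝ)) : Prop :=
  Λ.Nonempty ∧ IsCompact Λ ∧ Perfect Λ ∧ IsTotallyDisconnected Λ

/-- Wild attractors: invariant Cantor sets attracting a set of positive Lebesgue measure and
strictly contained in a transitive set. -/
def IsWildAttractor (f : ℝ × ℝ → ℝ × ℝ) (Λ : Set (ℝ × ℝ)) : Prop :=
  IsCantorSet Λ ∧ f '' Λ = Λ ∧ 0 < volume (basin f Λ) ∧ ∃ T, IsTransitiveSet f T ∧ Λ ⊂ T

end

end Pool.Agent.KS6_66.WA
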