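import Pool.Agent.KS6_66.WA.Code

/-! Towers of height four over factors of the full shift. -/

set_option autoImplicit false

namespace Pool.Agent.KS6_66.WA

open Set Filter Topology MeasureTheory

noncomputable section

/-- A sequence that contains all finite words at multiples of twelve arbitrarily far to the
right. -/
def dens12 : ℤ → Bool := fun q =>
  Nat.testBit (Nat.unpair (Nat.sqrt q.toNat / 12)).1 (q.toNat - (Nat.sqrt q.toNat) ^ 2)

lemma dens12_spec (t : ℤ → Bool) (k N : ℕ) :
    ∃ n : ℕ, N ≤ n ∧ ∀ m : ℤ, |m| ≤ k → dens12 (m + (12 * n : ℕ)) = t m := by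
  set W : ℕ := Nat.ofBits (fun i : Fin (24 * k + 1) => t ((i : ℤ) - 12 * k)) with hW
  set j : ℕ := Nat.pair W (N + 2 * k) with hj
  have hjN : N + 2 * k ≤ j := Nat.right_le_pair _ _
  refine ⟨12 * (j * j) + k, ?_, ?_⟩
  · nlinarith
  · intro m hm
    rw [abs_le] at hm
    obtain ⟨i, hi⟩ : ∃ i : ℕ, (i : ℤ) = m + 12 * k := ⟨(m + 12 * k).toNat, by omega⟩
    have hi2 : i < 24 * k + 1 := by omega
    have e1 : (m + ((12 * (12 * (j * j) + k) : ℕ) : ℤ)).toNat = (12 * j) * (12 * j) + i := by
      have : (m + ((12 * (12 * (j * j) + k) : ℕ) : ℤ)) = (((12 * j) * (12 * j) + i : ℕ) : ℤ) := by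
        push_cast
        linarith
      rw [this]
      exact Int.toNat_natCast _
    unfold dens12
    rw [e1, Nat.sqrt_add_eq _ (by omega), Nat.mul_div_cancel_left _ (by norm_num : 0 < 12), hj,
      Nat.unpair_pair]
    have e2 : 12 * Nat.pair W (N + 2 * k) * (12 * Nat.pair W (N + 2 * k)) + i -
        (12 * Nat.pair W (N + 2 * k)) ^ 2 = i := by
      rw [sq]
      omega
    simp only [e2]
    rw [hW, Nat.testBit_ofBits_lt _ _ hi2]
    congr 1
    simp only
    omega

lemma dens12_cluster (t : ℤ → Bool) :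
    MapClusterPt t atTop (fun n : ℕ => shift^[12 * n] dens12) := by
  rw [mapClusterPt_iff_frequently]
  intro U hU
  obtain ⟨k, hk⟩ : ∃ k : ℕ, ∀ t' : ℤ → Bool, (∀ m : ℤ, |m| ≤ k → t' m = t m) → t' ∈ U := by
    by_contra hcon
    push Not at hcon
    choose u hu1 hu2 using hcon
    have h1 : Tendsto u atTop (𝓝 t) := by
      rw [tendsto_pi_nhds]
      intro m
      refine tendsto_const_nhds.congr' ?_
      filter_upwards [eventually_ge_atTop m.natAbs] with k hk
      rw [hu1 k m (by rw [Int.abs_eq_natAbs]; exact_mod_cast hk)]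
    obtain ⟨k, hk⟩ := (h1.eventually hU).exists
    exact hu2 k hk
  rw [frequently_atTop]
  intro N
  obtain ⟨n, hn, hm⟩ := dens12_spec t k N
  exact ⟨n, hn, hk _ (fun m hm' => by rw [shift_iter]; exact hm m hm')⟩

/-- The tower of height four over the range of `G`. -/
def tow (F : ℝ × ℝ → ℝ × ℝ) (G : (ℤ → Bool) → ℝ × ℝ) : Set (ℝ × ℝ) :=
  ⋃ j : Fin 4, F^[(j : ℕ)] '' range G

lemma mem_tow {F : ℝ × ℝ → ℝ × ℝ} {G : (ℤ → Bool) → ℝ × ℝ} {z : ℝ × ℝ} :
    z ∈ tow F G ↔ ∃ j : ℕ, j < 4 ∧ ∃ v, F^[j] (G v) = z := by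
  unfold tow
  rw [mem_iUnion]
  constructor
  · rintro ⟨j, _, ⟨v, rfl⟩, rfl⟩
    exact ⟨j, j.2, v, rfl⟩
  · rintro ⟨j, hj, v, rfl⟩
    exact ⟨⟨j, hj⟩, _, ⟨v, rfl⟩, rfl⟩

lemma tow_compact {F : ℝ × ℝ → ℝ × ℝ} (hF : Continuous F) {G : (ℤ → Bool) → ℝ × ℝ}
    (hG : Continuous G) : IsCompact (tow F G) :=
  isCompact_iUnion fun j => (isCompact_range hG).image (hF.iterate j)

lemma tow_iter {F : ℝ × ℝ → ℝ × ℝ} {G : (ℤ → Bool) → ℝ × ℝ} {k : ℕ}
    (h : ∀ v, F^[4] (G v) = G (shift^[k] v)) (n : ℕ) (v : ℤ → Bool) :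
    F^[4 * n] (G v) = G (shift^[k * n] v) := by
  induction n generalizing v with
  | zero => rfl
  | succ n ih =>
    rw [show 4 * (n + 1) = 4 * n + 4 by ring, show k * (n + 1) = k * n + k by ring,
      Function.iterate_add_apply, h, ih, ← Function.iterate_add_apply]

lemma tow_transitive {F : ℝ × ℝ → ℝ × ℝ} (hF : Continuous F) {G : (ℤ → Bool) → ℝ × ℝ}
    (hG : Continuous G) {k l : ℕ} (hk : k * l = 12) (h : ∀ v, F^[4] (G v) = G (shift^[k] v)) :
    IsTransitiveSet F (tow F G) := by
  have himage : F '' tow F G = tow F G := by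
    ext z
    constructor
    · rintro ⟨w, hw, rfl⟩
      obtain ⟨j, hj, v, rfl⟩ := mem_tow.1 hw
      rw [← Function.iterate_succ_apply' F]
      by_cases hj3 : j + 1 < 4
      · exact mem_tow.2 ⟨j + 1, hj3, v, rfl⟩
      · have : j.succ = 4 := by omega
        rw [this, h]
        exact mem_tow.2 ⟨0, by norm_num, _, rfl⟩
    · intro hz
      obtain ⟨j, hj, v, rfl⟩ := mem_tow.1 hz
      rcases Nat.eq_zero_or_pos j with rfl | hj0
      · obtain ⟨v', hv'⟩ := (shift_surjective.iterate k) v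
        refine ⟨F^[3] (G v'), mem_tow.2 ⟨3, by norm_num, v', rfl⟩, ?_⟩
        rw [← Function.iterate_succ_apply' F, h, hv']
        rfl
      · refine ⟨F^[j - 1] (G v), mem_tow.2 ⟨j - 1, by omega, v, rfl⟩, ?_⟩
        rw [← Function.iterate_succ_apply' F]
        congr 2
        omega
  have horb : ∀ (n : ℕ) (z : ℝ × ℝ), z ∈ tow F G → F^[n] z ∈ tow F G := by
    intro n
    induction n with
    | zero => exact fun z hz => hz
    | succ n ih =>
      intro z hz
      rw [Function.iterate_succ_apply]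
      exact ih _ (himage ▸ mem_image_of_mem F hz)
  have hK := tow_compact hF hG
  refine ⟨hK, himage, G dens12, mem_tow.2 ⟨0, by norm_num, _, rfl⟩, ?_⟩
  apply Subset.antisymm
  · intro w hw
    have hw' : MapClusterPt w atTop (fun n : ℕ => F^[n] (G dens12)) := hw
    by_contra hcon
    rw [mapClusterPt_iff_frequently] at hw'
    have h1 := hw' _ (hK.isClosed.isOpen_compl.mem_nhds hcon)
    obtain ⟨n, hn⟩ := h1.exists
    exact hn (horb n _ (mem_tow.2 ⟨0, by norm_num, _, rfl⟩))
  · intro w hw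
    obtain ⟨j, hj, v, rfl⟩ := mem_tow.1 hw
    show MapClusterPt _ atTop (fun n : ℕ => F^[n] (G dens12))
    have h1 := (dens12_cluster v).continuousAt_comp
      (((hF.iterate j).comp hG).continuousAt (x := v))
    have h2 : ((F^[j] ∘ G) ∘ fun n : ℕ => shift^[12 * n] dens12) =
        (fun n : ℕ => F^[n] (G dens12)) ∘ fun n : ℕ => j + 4 * (l * n) := by
      funext n
      simp only [Function.comp_apply]
      rw [Function.iterate_add_apply, tow_iter h, ← mul_assoc, hk]
    rw [h2] at h1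
    refine MapClusterPt.of_comp ?_ h1
    have hl : 0 < l := by
      rcases Nat.eq_zero_or_pos l with rfl | hl
      · omega
      · exact hl
    refine tendsto_atTop_mono (fun n => ?_) tendsto_id
    simp only [id]
    nlinarith

/-- No isolated points in `S N`. -/
lemma S_acc (N : ℕ) {s : ℤ → Bool} (hs : s ∈ S N) {U : Set (ℤ → Bool)} (hU : U ∈ 𝓝 s) :
    ∃ s' ∈ S N, s' ∈ U ∧ s' ≠ s := by
  let A : ℕ → ℤ → Bool := fun k n => if n ≤ k then s n else false
  let B : ℕ → ℤ → Bool := fun k n => if n ≤ k then s n else decide (n = k + N + 1)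
  have hA : ∀ k, A k ∈ S N := by
    rintro k n j h1 h2 ⟨h3, h4⟩
    simp only [A] at h3 h4
    have := hs n j h1 h2
    split_ifs at h3 h4 <;> simp_all
  have hB : ∀ k, B k ∈ S N := by
    rintro k n j h1 h2 ⟨h3, h4⟩
    simp only [B] at h3 h4
    have := hs n j h1 h2
    split_ifs at h3 h4 with h5 h6 h6
    · exact this ⟨h3, h4⟩
    · simp only [decide_eq_true_eq] at h4
      omega
    · omega
    · simp only [decide_eq_true_eq] at h3 h4
      omega
  have tA : Tendsto A atTop (𝓝 s) := by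
    rw [tendsto_pi_nhds]
    intro m
    refine tendsto_const_nhds.congr' ?_
    filter_upwards [eventually_ge_atTop m.natAbs] with k hk
    simp only [A]
    rw [if_pos (by omega)]
  have tB : Tendsto B atTop (𝓝 s) := by
    rw [tendsto_pi_nhds]
    intro m
    refine tendsto_const_nhds.congr' ?_
    filter_upwards [eventually_ge_atTop m.natAbs] with k hk
    simp only [B]
    rw [if_pos (by omega)]
  obtain ⟨k, hk1, hk2⟩ := ((tA.eventually hU).and (tB.eventually hU)).exists
  have hAB : A k ≠ B k := by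
    intro h
    have := congrFun h (k + N + 1)
    simp only [A, B] at this
    rw [if_neg (by omega), if_neg (by omega)] at this
    simp at this
  by_cases hAs : A k = s
  · exact ⟨B k, hB k, hk2, fun h => hAB (hAs.trans h.symm)⟩
  · exact ⟨A k, hA k, hk1, hAs⟩

/-- The set over which the tower stands, for a map which factors through `retr N`. -/
lemma range_retr (N : ℕ) {Y : Type} (G : (ℤ → Bool) → Y) :
    range (fun v => G (retr N v)) = G '' S N := by
  ext z
  constructor
  · rintro ⟨v, rfl⟩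
    exact ⟨_, retr_mem N v, rfl⟩
  · rintro ⟨v, hv, rfl⟩
    exact ⟨v, by simp only [retr_of_mem N hv]⟩

/-- Towers over `S N` are perfect. -/
lemma tow_perfect {F : ℝ × ℝ → ℝ × ℝ} (hF : Continuous F) (hFi : Function.Injective F)
    {G : (ℤ → Bool) → ℝ × ℝ} (hG : Continuous G) (hGi : Function.Injective G) (N : ℕ) :
    Perfect (tow F fun v => G (retr N v)) := by
  have hG' : Continuous fun v => G (retr N v) := hG.comp (retr_continuous N)
  refine ⟨(tow_compact hF hG').isClosed, ?_⟩
  intro z hz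
  obtain ⟨j, hj, v, rfl⟩ := mem_tow.1 hz
  rw [accPt_iff_nhds]
  intro U hU
  have hc : Continuous fun v => F^[j] (G v) := (hF.iterate j).comp hG
  have hi : Function.Injective fun v => F^[j] (G v) := (hFi.iterate j).comp hGi
  obtain ⟨s', h1, h2, h3⟩ := S_acc N (retr_mem N v) (hc.continuousAt.preimage_mem_nhds hU)
  refine ⟨F^[j] (G s'), ⟨h2, mem_tow.2 ⟨j, hj, s', ?_⟩⟩, fun h => h3 (hi h)⟩
  rw [retr_of_mem N h1]

lemma retr_shift_iter (N k : ℕ) (s : ℤ → Bool) : shift^[k] (retr N s) = retr N (shift^[k] s) := by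
  induction k generalizing s with
  | zero => rfl
  | succ k ih => rw [Function.iterate_succ_apply, retr_shift, ih, Function.iterate_succ_apply]

end

end Pool.Agent.KS6_66.WA
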