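import Pool.Agent.KS6_66.WA.NExp
import Pool.Agent.KS6_66.WA.Sym
import Pool.Agent.KS6_66.WA.Area

/-! Negative Jacobian: orbits with prescribed admissible itineraries. -/

set_option autoImplicit false

namespace Pool.Agent.KS6_66.WA.Neg

open Set Filter Topology MeasureTheory

noncomputable section

instance optTop : TopologicalSpace (Option Bool) := ⊥

instance optDisc : DiscreteTopology (Option Bool) := ⟨rfl⟩

variable (q : Par)

/-- Admissible itineraries: no two consecutive places in the outer branches. -/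
def Adm (s : ℤ → Option Bool) : Prop := ∀ n, s n ≠ none → s (n + 1) = none

lemma Adm.pred {s : ℤ → Option Bool} (hs : Adm s) {n : ℤ} (h : s n ≠ none) :
    s (n - 1) = none := by
  by_contra hcon
  have := hs _ hcon
  rw [show n - 1 + 1 = n by ring] at this
  exact h this

/-- `x` is a full orbit with itinerary `s`. -/
def Sol (s : ℤ → Option Bool) (x : ℤ → ℝ) : Prop :=
  ∀ n, x n ∈ I (s n) ∧ P q (x n) = x (n + 1) - q.c * x (n - 1)

lemma branch_exists {s : ℤ → Option Bool} (hs : Adm s) {x : ℤ → ℝ} (hx : ∀ n, x n ∈ I (s n))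
    (n : ℤ) : ∃ z ∈ I (s n), P q z = x (n + 1) - q.c * x (n - 1) := by
  have hc0 := q.hc0
  have key : ∀ M : ℝ, |x (n + 1)| ≤ M → |x (n - 1)| ≤ M →
      |x (n + 1) - q.c * x (n - 1)| ≤ M * (1 + q.c) := by
    intro M h1 h2
    calc |x (n + 1) - q.c * x (n - 1)| ≤ |x (n + 1)| + |q.c * x (n - 1)| := abs_sub _ _
      _ = |x (n + 1)| + q.c * |x (n - 1)| := by rw [abs_mul, abs_of_pos hc0]
      _ ≤ M + q.c * M := add_le_add h1 (mul_le_mul_of_nonneg_left h2 hc0.le)
      _ = M * (1 + q.c) := by ring
  match hsn : s n with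
  | none => exact exists_branch_none q _ (key 3 (I_bound _ (hx _)) (I_bound _ (hx _)))
  | some j =>
    have h1 : s n ≠ none := by rw [hsn]; simp
    have h2 := hx (n + 1)
    have h3 := hx (n - 1)
    rw [hs n h1] at h2
    rw [hs.pred h1] at h3
    have := key 1 (I_none h2) (I_none h3)
    rw [one_mul] at this
    exact exists_branch_some q j _ this

lemma diff_bound {a b c d D : ℝ} (h1 : |a - b| ≤ D) (h2 : |c - d| ≤ D) :
    |(a - q.c * c) - (b - q.c * d)| ≤ (1 + q.c) * D := by
  have hb := q.hc0
  calc |(a - q.c * c) - (b - q.c * d)| = |(a - b) - q.c * (c - d)| := by congr 1; ring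
    _ ≤ |a - b| + |q.c * (c - d)| := abs_sub _ _
    _ = |a - b| + q.c * |c - d| := by rw [abs_mul, abs_of_pos hb]
    _ ≤ D + q.c * D := add_le_add h1 (mul_le_mul_of_nonneg_left h2 hb.le)
    _ = (1 + q.c) * D := by ring

lemma I_diff (i i' : Option Bool) {x y : ℝ} (hx : x ∈ I i) (hy : y ∈ I i') : |x - y| ≤ 8 := by
  have h1 := I_bound _ hx
  have h2 := I_bound _ hy
  have := abs_sub x y
  linarith

lemma compare {s s' : ℤ → Option Bool} {x x' : ℤ → ℝ} (hx : Sol q s x) (hx' : Sol q s' x') :
    ∀ (k : ℕ) (n : ℤ), (∀ m : ℤ, |m - n| < k → s m = s' m) → |x n - x' n| ≤ 8 / ((k : ℝ) + 1) := by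
  intro k
  induction k with
  | zero =>
    intro n _
    norm_num
    exact I_diff _ _ (hx n).1 (hx' n).1
  | succ k ih =>
    intro n hn
    have hs : s n = s' n := hn n (by push_cast; simp)
    have i1 := ih (n + 1) (fun m hm => hn m (by
      rw [abs_lt] at *; push_cast; constructor <;> linarith [hm.1, hm.2]))
    have i2 := ih (n - 1) (fun m hm => hn m (by
      rw [abs_lt] at *; push_cast; constructor <;> linarith [hm.1, hm.2]))
    have hb := diff_bound q i1 i2
    rw [← (hx n).2, ← (hx' n).2] at hb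
    have h3 := step_bound q (s n) k (hx n).1 (by rw [hs]; exact (hx' n).1) hb le_rfl
    push_cast
    rw [show (k : ℝ) + 1 + 1 = k + 2 by ring]
    exact h3

lemma tendsto_eight : Tendsto (fun k : ℕ => 8 / ((k : ℝ) + 1)) atTop (𝓝 0) := by
  have h := (tendsto_one_div_add_atTop_nhds_zero_nat (𝕜 := ℝ)).const_mul 8
  rw [mul_zero] at h
  refine h.congr fun k => ?_
  ring

lemma sol_unique {s : ℤ → Option Bool} {x x' : ℤ → ℝ} (hx : Sol q s x) (hx' : Sol q s x') :
    x = x' := by
  funext n
  have h : ∀ k : ℕ, |x n - x' n| ≤ 8 / ((k : ℝ) + 1) :=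
    fun k => compare q hx hx' k n (fun _ _ => rfl)
  have h2 : |x n - x' n| ≤ 0 := ge_of_tendsto' tendsto_eight h
  have h3 : x n - x' n = 0 := abs_eq_zero.1 (le_antisymm h2 (abs_nonneg _))
  linarith

/-- a base point in each branch interval -/
def base (i : Option Bool) : ℝ :=
  match i with
  | none => 0
  | some false => -3
  | some true => 3

lemma base_mem (i : Option Bool) : base i ∈ I i := by
  match i with
  | none => exact ⟨by norm_num [base], by norm_num [base]⟩
  | some false => exact ⟨by norm_num [base], by norm_num [base]⟩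
  | some true => exact ⟨by norm_num [base], by norm_num [base]⟩

/-- One step of the contraction. -/
def nxt (s : ℤ → Option Bool) (x : ℤ → ℝ) (n : ℤ) : ℝ :=
  open Classical in
  if h : ∃ z ∈ I (s n), P q z = x (n + 1) - q.c * x (n - 1) then h.choose else base (s n)

lemma nxt_mem (s : ℤ → Option Bool) (x : ℤ → ℝ) (n : ℤ) : nxt q s x n ∈ I (s n) := by
  unfold nxt
  split_ifs with h
  · exact h.choose_spec.1
  · exact base_mem _

lemma P_nxt {s : ℤ → Option Bool} (hs : Adm s) {x : ℤ → ℝ} (hx : ∀ n, x n ∈ I (s n)) (n : ℤ) :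
    P q (nxt q s x n) = x (n + 1) - q.c * x (n - 1) := by
  unfold nxt
  rw [dif_pos (branch_exists q hs hx n)]
  exact (branch_exists q hs hx n).choose_spec.2

/-- Approximate orbits with a prescribed itinerary. -/
def approx (s : ℤ → Option Bool) : ℕ → ℤ → ℝ
  | 0 => fun n => base (s n)
  | k + 1 => nxt q s (approx s k)

lemma approx_mem (s : ℤ → Option Bool) (k : ℕ) (n : ℤ) : approx q s k n ∈ I (s n) := by
  cases k with
  | zero => exact base_mem _
  | succ k => exact nxt_mem q s _ n

lemma approx_bound {s : ℤ → Option Bool} (hs : Adm s) (j : ℕ) : ∀ (k : ℕ) (n : ℤ),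
    |approx q s (k + j) n - approx q s k n| ≤ 8 / ((k : ℝ) + 1) := by
  intro k
  induction k with
  | zero =>
    intro n
    norm_num
    exact I_diff _ _ (approx_mem q s _ n) (approx_mem q s _ n)
  | succ k ih =>
    intro n
    have hb := diff_bound q (ih (n + 1)) (ih (n - 1))
    have e3 : k + 1 + j = (k + j) + 1 := by ring
    have hb2 : |P q (approx q s (k + 1 + j) n) - P q (approx q s (k + 1) n)| ≤
        (1 + q.c) * (8 / ((k : ℝ) + 1)) := by
      rw [e3]
      show |P q (nxt q s (approx q s (k + j)) n) - P q (nxt q s (approx q s k) n)| ≤ _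
      rw [P_nxt q hs (approx_mem q s _), P_nxt q hs (approx_mem q s _)]
      exact hb
    have h3 := step_bound q (s n) k (approx_mem q s (k + 1 + j) n) (approx_mem q s (k + 1) n)
      hb2 le_rfl
    push_cast
    rw [show (k : ℝ) + 1 + 1 = k + 2 by ring]
    exact h3

lemma I_closed (i : Option Bool) : IsClosed (I i) := by
  match i with
  | none => exact isClosed_Icc
  | some false => exact isClosed_Icc
  | some true => exact isClosed_Icc

lemma exists_sol {s : ℤ → Option Bool} (hs : Adm s) : ∃ x, Sol q s x := by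
  have hc : ∀ n, ∃ l, Tendsto (fun k => approx q s k n) atTop (𝓝 l) := by
    intro n
    apply cauchySeq_tendsto_of_complete
    apply Metric.cauchySeq_iff'.2
    intro ε hε
    obtain ⟨N, hN⟩ := (tendsto_eight.eventually (gt_mem_nhds hε)).exists
    refine ⟨N, fun m hm => ?_⟩
    obtain ⟨j, rfl⟩ := Nat.exists_eq_add_of_le hm
    rw [Real.dist_eq]
    exact (approx_bound q hs j N n).trans_lt hN
  choose x hx using hc
  refine ⟨x, fun n => ⟨?_, ?_⟩⟩
  · exact (I_closed (s n)).mem_of_tendsto (hx n) (Eventually.of_forall fun k => approx_mem q s k n)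
  · have h1 : Tendsto (fun k => P q (approx q s (k + 1) n)) atTop (𝓝 (P q (x n))) :=
      ((P_continuous q).tendsto _).comp ((hx n).comp (tendsto_add_atTop_nat 1))
    have h2 : Tendsto (fun k => approx q s k (n + 1) - q.c * approx q s k (n - 1)) atTop
        (𝓝 (x (n + 1) - q.c * x (n - 1))) := (hx (n + 1)).sub ((hx (n - 1)).const_mul q.c)
    refine tendsto_nhds_unique h1 (h2.congr fun k => ?_)
    exact (P_nxt q hs (approx_mem q s k) n).symm

/-- Admissible sequences. -/
abbrev AA : Type := {s : ℤ → Option Bool // Adm s}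

/-- The orbit with itinerary `s`. -/
def X (s : AA) : ℤ → ℝ := (exists_sol q s.2).choose

lemma X_sol (s : AA) : Sol q s.1 (X q s) := (exists_sol q s.2).choose_spec

/-- The shift. -/
def sh (s : AA) : AA := ⟨fun n => s.1 (n + 1), fun n h => s.2 (n + 1) h⟩

lemma X_sh (s : AA) (n : ℤ) : X q (sh s) n = X q s (n + 1) := by
  have h : Sol q (sh s).1 (fun n => X q s (n + 1)) := by
    intro m
    have := X_sol q s (m + 1)
    refine ⟨this.1, ?_⟩
    have h2 := this.2
    rw [show m + 1 - 1 = m by ring] at h2
    show P q (X q s (m + 1)) = X q s (m + 1 + 1) - q.c * X q s (m - 1 + 1)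
    rw [h2, show m - 1 + 1 = m by ring]
  exact congrFun (sol_unique q (X_sol q _) h) n

/-- The coding map. -/
def code (s : AA) : ℝ × ℝ := (X q s 0, X q s (-1))

/-- The polynomial of the Henon map. -/
def poly : Polynomial ℝ :=
  Polynomial.C (1 + q.c) * (Polynomial.C (1 / 3456) * (Polynomial.C 14175 * Polynomial.X -
    Polynomial.C 4169 * Polynomial.X ^ 3 + Polynomial.C 373 * Polynomial.X ^ 5 -
    Polynomial.C 11 * Polynomial.X ^ 7) +
    Polynomial.C (1 / (35200 * ((q.m : ℝ) + 1)) * (1 / 4) ^ q.m) * (Polynomial.X ^ q.m *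
      ((Polynomial.X ^ 2 - Polynomial.C 1) ^ 2 * (Polynomial.X ^ 2 - Polynomial.C 9) ^ 2)))

lemma poly_eval (x : ℝ) : (poly q).eval x = P q x := by
  unfold poly P Q Q0 E
  simp only [Polynomial.eval_mul, Polynomial.eval_X, Polynomial.eval_sub,
    Polynomial.eval_add, Polynomial.eval_C, Polynomial.eval_pow]
  rw [div_pow, div_pow, one_pow]
  ring

lemma poly_natDegree : (poly q).natDegree = q.m + 8 := by
  have hc := q.hc0
  have hne : (1 / (35200 * ((q.m : ℝ) + 1)) * (1 / 4) ^ q.m) ≠ 0 := by positivity
  have h1 : (Polynomial.X ^ 2 - Polynomial.C 1 : Polynomial ℝ).Monic :=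
    Polynomial.monic_X_pow_sub_C _ (by norm_num)
  have h2 : (Polynomial.X ^ 2 - Polynomial.C 9 : Polynomial ℝ).Monic :=
    Polynomial.monic_X_pow_sub_C _ (by norm_num)
  have d1 : (Polynomial.X ^ 2 - Polynomial.C 1 : Polynomial ℝ).natDegree = 2 :=
    Polynomial.natDegree_X_pow_sub_C
  have d2 : (Polynomial.X ^ 2 - Polynomial.C 9 : Polynomial ℝ).natDegree = 2 :=
    Polynomial.natDegree_X_pow_sub_C
  have h3 : (Polynomial.X ^ q.m * ((Polynomial.X ^ 2 - Polynomial.C 1) ^ 2 *
      (Polynomial.X ^ 2 - Polynomial.C 9) ^ 2) : Polynomial ℝ).natDegree = q.m + 8 := by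
    rw [(Polynomial.monic_X_pow q.m).natDegree_mul ((h1.pow 2).mul (h2.pow 2)),
      (h1.pow 2).natDegree_mul (h2.pow 2), h1.natDegree_pow, h2.natDegree_pow, d1, d2,
      Polynomial.natDegree_X_pow]
  have h4 : (Polynomial.C (1 / (35200 * ((q.m : ℝ) + 1)) * (1 / 4) ^ q.m) * (Polynomial.X ^ q.m *
      ((Polynomial.X ^ 2 - Polynomial.C 1) ^ 2 * (Polynomial.X ^ 2 - Polynomial.C 9) ^ 2)) :
      Polynomial ℝ).natDegree = q.m + 8 := by
    rw [Polynomial.natDegree_C_mul hne, h3]
  have h5 : (Polynomial.C (1 / 3456) * (Polynomial.C 14175 * Polynomial.X -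
    Polynomial.C 4169 * Polynomial.X ^ 3 + Polynomial.C 373 * Polynomial.X ^ 5 -
    Polynomial.C 11 * Polynomial.X ^ 7) : Polynomial ℝ).natDegree ≤ 7 := by
    compute_degree
  unfold poly
  rw [Polynomial.natDegree_C_mul (by linarith), Polynomial.natDegree_add_eq_right_of_natDegree_lt,
    h4]
  rw [h4]
  omega

/-- The Henon map. -/
def f : ℝ × ℝ → ℝ × ℝ := henon (poly q) (-q.c)

lemma f_apply (z : ℝ × ℝ) : f q z = (P q z.1 + q.c * z.2, z.1) := by
  unfold f henon
  rw [poly_eval]
  ring_nf

lemma f_continuous : Continuous (f q) := henon_continuous _ _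

lemma f_injective : Function.Injective (f q) := henon_injective _ _ (by
  have := q.hc0
  linarith)

lemma f_code (s : AA) : f q (code q s) = code q (sh s) := by
  rw [f_apply]
  unfold code
  have h := (X_sol q s 0).2
  rw [X_sh, X_sh]
  norm_num at h ⊢
  linarith

lemma code_continuous : Continuous (code q) := by
  have h : ∀ n, Continuous fun s => X q s n := by
    intro n
    rw [continuous_iff_continuousAt]
    intro s
    rw [ContinuousAt, Metric.tendsto_nhds]
    intro ε hε
    obtain ⟨k, hk⟩ := (tendsto_eight.eventually (gt_mem_nhds hε)).exists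
    have h1 : ∀ᶠ s' in 𝓝 s, ∀ m ∈ Finset.Icc (n - k) (n + k), s'.1 m = s.1 m := by
      rw [Filter.eventually_all_finset]
      intro m _
      have hc : Continuous fun s' : AA => s'.1 m := (continuous_apply m).comp continuous_subtype_val
      exact hc.continuousAt.eventually ((isOpen_discrete {s.1 m}).mem_nhds (mem_singleton _))
    filter_upwards [h1] with s' hs'
    rw [Real.dist_eq]
    refine (compare q (X_sol q s') (X_sol q s) k n (fun m hm => hs' m ?_)).trans_lt hk
    rw [abs_lt] at hm
    rw [Finset.mem_Icc]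
    constructor <;> linarith [hm.1, hm.2]
  exact (h 0).prodMk (h (-1))

lemma I_disjoint {i j : Option Bool} {x : ℝ} (h1 : x ∈ I i) (h2 : x ∈ I j) : i = j := by
  match i, j, h1, h2 with
  | none, none, _, _ => rfl
  | none, some false, h1, h2 => linarith [h1.1, h2.2]
  | none, some true, h1, h2 => linarith [h1.2, h2.1]
  | some false, none, h1, h2 => linarith [h2.1, h1.2]
  | some false, some false, _, _ => rfl
  | some false, some true, h1, h2 => linarith [h1.2, h2.1]
  | some true, none, h1, h2 => linarith [h2.2, h1.1]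
  | some true, some false, h1, h2 => linarith [h2.2, h1.1]
  | some true, some true, _, _ => rfl

lemma code_injective : Function.Injective (code q) := by
  intro s s' h
  have hb := q.hc0
  have h0 : X q s 0 = X q s' 0 ∧ X q s (-1) = X q s' (-1) := by
    unfold code at h
    exact Prod.mk.inj h
  have key : ∀ n : ℤ, X q s n = X q s' n ∧ X q s (n - 1) = X q s' (n - 1) := by
    intro n
    induction n using Int.induction_on with
    | zero => simpa using h0
    | succ n ih =>
      have e1 := (X_sol q s n).2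
      have e2 := (X_sol q s' n).2
      rw [ih.1, ih.2] at e1
      constructor
      · linarith
      · rw [show (n : ℤ) + 1 - 1 = n by ring]; exact ih.1
    | pred n ih =>
      have e1 := (X_sol q s (-n - 1)).2
      have e2 := (X_sol q s' (-n - 1)).2
      rw [show -(n : ℤ) - 1 + 1 = -n by ring] at e1 e2
      rw [ih.1, ih.2] at e1
      refine ⟨ih.2, ?_⟩
      have e3 : q.c * X q s (-n - 1 - 1) = q.c * X q s' (-n - 1 - 1) := by linarith
      exact mul_left_cancel₀ hb.ne' e3
  apply Subtype.ext
  funext n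
  have h1 := (X_sol q s n).1
  have h2 := (X_sol q s' n).1
  rw [(key n).1] at h1
  exact I_disjoint h1 h2

lemma Adm_closed : IsClosed {s : ℤ → Option Bool | Adm s} := by
  have h : {s : ℤ → Option Bool | Adm s} = ⋂ n : ℤ, {s | s n ≠ none → s (n + 1) = none} := by
    ext s
    simp [Adm]
  rw [h]
  refine isClosed_iInter fun n => ?_
  have hc : Continuous fun s : ℤ → Option Bool => (s n, s (n + 1)) :=
    (continuous_apply n).prodMk (continuous_apply (n + 1))
  exact (isClosed_discrete {p : Option Bool × Option Bool | p.1 ≠ none → p.2 = none}).preimage hc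

instance AA_compact : CompactSpace AA :=
  isCompact_iff_compactSpace.1 (Adm_closed).isCompact

lemma code_embedding : Topology.IsClosedEmbedding (code q) :=
  (code_continuous q).isClosedEmbedding (code_injective q)

lemma range_totDisc : IsTotallyDisconnected (range (code q)) := by
  rw [← image_univ, (code_embedding q).isEmbedding.isTotallyDisconnected_image]
  exact isTotallyDisconnected_of_totallyDisconnectedSpace _

end

end Pool.Agent.KS6_66.WA.Neg
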