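import Pool.Agent.KS6_66.WA.NPoly

/-! Weak expansion on the three branches, and the neutral 4-cycle from outside. -/

set_option autoImplicit false

namespace Pool.Agent.KS6_66.WA.Neg

open Set Filter Topology MeasureTheory

noncomputable section

variable (q : Par)

lemma mono_of {f f' : ℝ → ℝ} {a b : ℝ} (h : ∀ x, HasDerivAt f (f' x) x)
    (h0 : ∀ x ∈ Icc a b, 0 ≤ f' x) : MonotoneOn f (Icc a b) := by
  refine monotoneOn_of_deriv_nonneg (convex_Icc a b)
    (fun x _ => (h x).continuousAt.continuousWithinAt)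
    (fun x _ => (h x).differentiableAt.differentiableWithinAt) (fun x hx => ?_)
  rw [(h x).deriv]
  exact h0 x (interior_subset hx)

lemma Q_one : Q q 1 = 3 := by unfold Q Q0 E; norm_num

lemma Q_neg_one : Q q (-1) = -3 := by unfold Q Q0 E; norm_num

lemma Q_three : Q q 3 = -1 := by unfold Q Q0 E; norm_num

lemma Q_neg_three : Q q (-3) = 1 := by unfold Q Q0 E; norm_num

lemma Q_two : 1 ≤ Q q 2 := by
  have h : 0 ≤ E q 2 := by unfold E; positivity
  have h2 : (1 : ℝ) ≤ Q0 2 := by unfold Q0; norm_num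
  unfold Q
  linarith

lemma Q_neg_two : Q q (-2) ≤ -1 := by
  have h : E q (-2) ≤ 225 / 35200 := by
    unfold E
    rw [div_le_div_iff₀ (by positivity) (by norm_num)]
    have h1 : ((-2 : ℝ) / 4) ^ q.m ≤ 1 := by
      refine (le_abs_self _).trans ?_
      rw [abs_pow]
      exact pow_le_one₀ (abs_nonneg _) (by norm_num [abs_div])
    have hm : (0 : ℝ) ≤ q.m := Nat.cast_nonneg _
    have h2 : ((-2 : ℝ) / 4) ^ q.m * (((-2) ^ 2 - 1) ^ 2 * ((-2) ^ 2 - 9) ^ 2) ≤ 1 * 225 := by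
      norm_num at h1 ⊢
      linarith
    nlinarith
  have h2 : Q0 (-2) ≤ -(159 / 100) := by unfold Q0; norm_num
  unfold Q
  linarith

/-- The branch intervals. -/
def I (i : Option Bool) : Set ℝ :=
  match i with
  | none => Icc (-1) 1
  | some false => Icc (-3) (-2)
  | some true => Icc 2 3

lemma I_bound (i : Option Bool) {x : ℝ} (h : x ∈ I i) : |x| ≤ 3 := by
  rw [abs_le]
  match i, h with
  | none, h => exact ⟨by linarith [h.1], by linarith [h.2]⟩
  | some false, h => exact ⟨by linarith [h.1], by linarith [h.2]⟩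
  | some true, h => exact ⟨by linarith [h.1], by linarith [h.2]⟩

lemma I_none {x : ℝ} (h : x ∈ I none) : |x| ≤ 1 := abs_le.2 h

lemma I_some {i : Option Bool} (hi : i ≠ none) {x : ℝ} (h : x ∈ I i) : 2 ≤ |x| ∧ |x| ≤ 3 := by
  match i, hi, h with
  | some false, _, h =>
    have h1 : x ≤ -2 := h.2
    have h2 : -3 ≤ x := h.1
    rw [abs_of_neg (by linarith)]
    constructor <;> linarith
  | some true, _, h =>
    have h1 : 2 ≤ x := h.1
    have h2 : x ≤ 3 := h.2
    rw [abs_of_pos (by linarith)]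
    constructor <;> linarith

/-- The weak expansion. -/
lemma Q_expand (i : Option Bool) {x y : ℝ} (hx : x ∈ I i) (hy : y ∈ I i) :
    |x - y| * (1 + |x - y| / 4) ≤ |Q q x - Q q y| := by
  wlog hxy : y ≤ x generalizing x y
  · have := this hy hx (by linarith)
    rwa [abs_sub_comm x y, abs_sub_comm (Q q x) (Q q y)]
  have h0 : 0 ≤ x - y := by linarith
  rw [abs_of_nonneg h0]
  match i, hx, hy with
  | none, hx, hy =>
    have hmono : MonotoneOn (fun t => Q q t - (3 * t - 2 / 3 * t ^ 3)) (Icc (-1) 1) := by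
      refine mono_of (f' := fun t => Q0' t + E' q t - (3 - 2 * t ^ 2)) (fun t => ?_)
        (fun t ht => ?_)
      · have h1 := (Q_deriv q t).sub (((hasDerivAt_id t).const_mul 3).sub
          ((hasDerivAt_pow 3 t).const_mul (2 / 3)))
        refine HasDerivAt.congr_deriv (f := fun t => Q q t - (3 * t - 2 / 3 * t ^ 3)) h1 ?_
        norm_num
        ring
      · have := D1 q (abs_le.2 ht)
        linarith
    have h1 := hmono hy hx hxy
    simp only at h1
    have hx1 : -1 ≤ x := hx.1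
    have hx2 : x ≤ 1 := hx.2
    have hy1 : -1 ≤ y := hy.1
    have hy2 : y ≤ 1 := hy.2
    have h2 : (x - y) * (3 - 2 / 3 * (x ^ 2 + x * y + y ^ 2)) ≤ Q q x - Q q y := by nlinarith
    have h3 : 1 + (x - y) / 4 ≤ 3 - 2 / 3 * (x ^ 2 + x * y + y ^ 2) := by
      nlinarith [mul_nonneg (sub_nonneg.2 hx2) (sub_nonneg.2 hx1),
        mul_nonneg (sub_nonneg.2 hy2) (sub_nonneg.2 hy1),
        mul_nonneg (sub_nonneg.2 hx2) (sub_nonneg.2 hy1), mul_nonneg h0 (sub_nonneg.2 hx2)]
    calc (x - y) * (1 + (x - y) / 4) ≤ (x - y) * (3 - 2 / 3 * (x ^ 2 + x * y + y ^ 2)) :=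
          mul_le_mul_of_nonneg_left h3 h0
      _ ≤ Q q x - Q q y := h2
      _ ≤ _ := le_abs_self _
  | some j, hx, hy =>
    obtain ⟨a, b, hab, hsub⟩ : ∃ a b : ℝ, I (some j) = Icc a b ∧
        ∀ t ∈ Icc a b, 2 ≤ |t| ∧ |t| ≤ 3 := by
      cases j
      · exact ⟨-3, -2, rfl, fun t ht => I_some (i := some false) (by simp) ht⟩
      · exact ⟨2, 3, rfl, fun t ht => I_some (i := some true) (by simp) ht⟩
    have hmono : MonotoneOn (fun t => -Q q t - (37 / 10 * t - 1 / 10 * t ^ 3)) (Icc a b) := by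
      refine mono_of (f' := fun t => -(Q0' t + E' q t) - (37 / 10 - 3 / 10 * t ^ 2)) (fun t => ?_)
        (fun t ht => ?_)
      · have h1 := (Q_deriv q t).neg.sub (((hasDerivAt_id t).const_mul (37 / 10)).sub
          ((hasDerivAt_pow 3 t).const_mul (1 / 10)))
        refine HasDerivAt.congr_deriv (f := fun t => -Q q t - (37 / 10 * t - 1 / 10 * t ^ 3)) h1 ?_
        norm_num
        ring
      · have := D2 q (hsub t ht).1 (hsub t ht).2
        linarith
    have hx' := hx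
    have hy' := hy
    rw [hab] at hx' hy'
    have h1 := hmono hy' hx' hxy
    simp only at h1
    have h2 : (x - y) * (37 / 10 - 1 / 10 * (x ^ 2 + x * y + y ^ 2)) ≤ -(Q q x - Q q y) := by
      nlinarith
    have h3 : 1 + (x - y) / 4 ≤ 37 / 10 - 1 / 10 * (x ^ 2 + x * y + y ^ 2) := by
      cases j
      · have hx1 : -3 ≤ x := hx.1
        have hx2 : x ≤ -2 := hx.2
        have hy1 : -3 ≤ y := hy.1
        have hy2 : y ≤ -2 := hy.2
        nlinarith [mul_nonneg (sub_nonneg.2 hx1) (sub_nonneg.2 hy1),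
          mul_nonneg (sub_nonneg.2 hx1) (sub_nonneg.2 hx1),
          mul_nonneg (sub_nonneg.2 hy1) (sub_nonneg.2 hy1),
          mul_nonneg (sub_nonneg.2 hx1) (sub_nonneg.2 hx2),
          mul_nonneg (sub_nonneg.2 hy1) (sub_nonneg.2 hy2),
          mul_nonneg (sub_nonneg.2 hx1) (sub_nonneg.2 hy2)]
      · have hx1 : 2 ≤ x := hx.1
        have hx2 : x ≤ 3 := hx.2
        have hy1 : 2 ≤ y := hy.1
        have hy2 : y ≤ 3 := hy.2
        nlinarith [mul_nonneg (sub_nonneg.2 hx2) (sub_nonneg.2 hy2),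
          mul_nonneg (sub_nonneg.2 hx2) (sub_nonneg.2 hx2),
          mul_nonneg (sub_nonneg.2 hy2) (sub_nonneg.2 hy2),
          mul_nonneg (sub_nonneg.2 hx1) (sub_nonneg.2 hx2),
          mul_nonneg (sub_nonneg.2 hy1) (sub_nonneg.2 hy2),
          mul_nonneg (sub_nonneg.2 hy1) (sub_nonneg.2 hx2)]
    calc (x - y) * (1 + (x - y) / 4) ≤ (x - y) * (37 / 10 - 1 / 10 * (x ^ 2 + x * y + y ^ 2)) :=
          mul_le_mul_of_nonneg_left h3 h0
      _ ≤ -(Q q x - Q q y) := h2
      _ ≤ _ := neg_le_abs _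

/-- From a bound on the images to a bound on the arguments. -/
lemma step_bound (i : Option Bool) {x y D : ℝ} (k : ℕ) (hx : x ∈ I i) (hy : y ∈ I i)
    (hD : |P q x - P q y| ≤ (1 + q.c) * D) (hk : D ≤ 8 / ((k : ℝ) + 1)) :
    |x - y| ≤ 8 / ((k : ℝ) + 2) := by
  by_contra hcon
  push Not at hcon
  have hc0 := q.hc0
  have hQ : |Q q x - Q q y| ≤ D := by
    have e : P q x - P q y = (1 + q.c) * (Q q x - Q q y) := by unfold P; ring
    rw [e, abs_mul, abs_of_pos (by linarith : 0 < 1 + q.c)] at hD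
    exact le_of_mul_le_mul_left hD (by linarith)
  have h1 := Q_expand q i hx hy
  have hk0 : (0 : ℝ) ≤ k := Nat.cast_nonneg k
  have h2 : 0 < 8 / ((k : ℝ) + 2) := by positivity
  have h3 : 8 / ((k : ℝ) + 2) * (1 + 8 / ((k : ℝ) + 2) / 4) <
      |x - y| * (1 + |x - y| / 4) := by
    apply mul_lt_mul'' hcon _ h2.le (by positivity)
    linarith
  have h4 : 8 / ((k : ℝ) + 1) ≤ 8 / ((k : ℝ) + 2) * (1 + 8 / ((k : ℝ) + 2) / 4) := by
    rw [show 8 / ((k : ℝ) + 2) * (1 + 8 / ((k : ℝ) + 2) / 4) =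
        (8 * (k + 4)) / ((k + 2) * (k + 2)) by field_simp; ring,
      div_le_div_iff₀ (by positivity) (by positivity)]
    nlinarith
  linarith

lemma exists_branch_none (u : ℝ) (h : |u| ≤ 3 * (1 + q.c)) : ∃ x ∈ I none, P q x = u := by
  have hc0 := q.hc0
  rw [abs_le] at h
  have h1 : Icc (P q (-1)) (P q 1) ⊆ P q '' Icc (-1) 1 :=
    intermediate_value_Icc (by norm_num) (P_continuous q).continuousOn
  have h2 : u ∈ Icc (P q (-1)) (P q 1) := by
    unfold P
    rw [Q_one, Q_neg_one]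
    constructor <;> linarith [h.1, h.2]
  obtain ⟨x, hx, hxu⟩ := h1 h2
  exact ⟨x, hx, hxu⟩

lemma exists_branch_some (j : Bool) (u : ℝ) (h : |u| ≤ 1 + q.c) :
    ∃ x ∈ I (some j), P q x = u := by
  have hc0 := q.hc0
  rw [abs_le] at h
  have hc : 0 < 1 + q.c := by linarith
  cases j
  · have h1 : Icc (P q (-2)) (P q (-3)) ⊆ P q '' Icc (-3) (-2) :=
      intermediate_value_Icc' (by norm_num) (P_continuous q).continuousOn
    have h2 : u ∈ Icc (P q (-2)) (P q (-3)) := by
      unfold P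
      rw [Q_neg_three]
      have := mul_le_mul_of_nonneg_left (Q_neg_two q) hc.le
      constructor <;> linarith [h.1, h.2]
    obtain ⟨x, hx, hxu⟩ := h1 h2
    exact ⟨x, hx, hxu⟩
  · have h1 : Icc (P q 3) (P q 2) ⊆ P q '' Icc 2 3 :=
      intermediate_value_Icc' (by norm_num) (P_continuous q).continuousOn
    have h2 : u ∈ Icc (P q 3) (P q 2) := by
      unfold P
      rw [Q_three]
      have := mul_le_mul_of_nonneg_left (Q_two q) hc.le
      constructor <;> linarith [h.1, h.2]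
    obtain ⟨x, hx, hxu⟩ := h1 h2
    exact ⟨x, hx, hxu⟩

/-! ### The neutral cycle from outside -/

lemma near_aux {G G' : ℝ → ℝ} (hG : ∀ t, HasDerivAt G (G' t) t) (h0 : G 0 = 0)
    (hb : ∀ t ∈ Icc (-(1 / 64) : ℝ) 0, 1 + 6 * t ≤ G' t ∧ G' t ≤ 1 + 3 * t) {y : ℝ}
    (hy : y ∈ Icc (-(1 / 64) : ℝ) 0) : y + 3 / 2 * y ^ 2 ≤ G y ∧ G y ≤ y + 3 * y ^ 2 := by
  have hmem : (0 : ℝ) ∈ Icc (-(1 / 64) : ℝ) 0 := by constructor <;> norm_num
  constructor
  · have hm : MonotoneOn (fun t => (t + 3 / 2 * t ^ 2) - G t) (Icc (-(1 / 64)) 0) := by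
      refine mono_of (f' := fun t => (1 + 3 * t) - G' t) (fun t => ?_) (fun t ht => ?_)
      · have h1 := ((hasDerivAt_id t).add ((hasDerivAt_pow 2 t).const_mul (3 / 2))).sub (hG t)
        refine HasDerivAt.congr_deriv (f := fun t => (t + 3 / 2 * t ^ 2) - G t) h1 ?_
        norm_num
        ring
      · linarith [(hb t ht).2]
    have := hm hy hmem hy.2
    simp only [h0] at this
    linarith
  · have hm : MonotoneOn (fun t => G t - (t + 3 * t ^ 2)) (Icc (-(1 / 64)) 0) := by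
      refine mono_of (f' := fun t => G' t - (1 + 6 * t)) (fun t => ?_) (fun t ht => ?_)
      · have h1 := (hG t).sub ((hasDerivAt_id t).add ((hasDerivAt_pow 2 t).const_mul 3))
        refine HasDerivAt.congr_deriv (f := fun t => G t - (t + 3 * t ^ 2)) h1 ?_
        norm_num
        ring
      · linarith [(hb t ht).1]
    have := hm hy hmem hy.2
    simp only [h0] at this
    linarith

lemma near0 {y : ℝ} (hy : y ∈ Icc (-(1 / 64) : ℝ) 0) :
    y + 3 / 2 * y ^ 2 ≤ Q q (-1 + y) - Q q (-1) ∧ Q q (-1 + y) - Q q (-1) ≤ y + 3 * y ^ 2 := by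
  refine near_aux (G := fun y => Q q (-1 + y) - Q q (-1))
    (G' := fun y => Q0' (-1 + y) + E' q (-1 + y)) (fun t => ?_) (by simp) (fun t ht => ?_) hy
  · exact ((Q_deriv q (-1 + t)).comp_const_add (-1) t).sub_const _
  · have ht2 := ht.2
    have ht1 := ht.1
    have e : |(-1 : ℝ) + t| = 1 - t := by rw [abs_of_neg (by linarith)]; ring
    have := D3 q (x := -1 + t) (by rw [e]; linarith) (by rw [e]; linarith)
    rw [e] at this
    constructor <;> linarith [this.1, this.2]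

lemma near1 {y : ℝ} (hy : y ∈ Icc (-(1 / 64) : ℝ) 0) :
    y + 3 / 2 * y ^ 2 ≤ -(Q q (-3 + y) - Q q (-3)) ∧
      -(Q q (-3 + y) - Q q (-3)) ≤ y + 3 * y ^ 2 := by
  refine near_aux (G := fun y => -(Q q (-3 + y) - Q q (-3)))
    (G' := fun y => -(Q0' (-3 + y) + E' q (-3 + y))) (fun t => ?_) (by simp) (fun t ht => ?_) hy
  · exact (((Q_deriv q (-3 + t)).comp_const_add (-3) t).sub_const _).neg
  · have ht2 := ht.2
    have ht1 := ht.1
    have e : |(-3 : ℝ) + t| = 3 - t := by rw [abs_of_neg (by linarith)]; ring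
    have := D4 q (x := -3 + t) (by rw [e]; linarith) (by rw [e]; linarith)
    rw [e] at this
    constructor <;> linarith [this.1, this.2]

lemma near2 {y : ℝ} (hy : y ∈ Icc (-(1 / 64) : ℝ) 0) :
    y + 3 / 2 * y ^ 2 ≤ -(Q q (1 - y) - Q q 1) ∧ -(Q q (1 - y) - Q q 1) ≤ y + 3 * y ^ 2 := by
  refine near_aux (G := fun y => -(Q q (1 - y) - Q q 1))
    (G' := fun y => Q0' (1 - y) + E' q (1 - y)) (fun t => ?_) (by simp) (fun t ht => ?_) hy
  · have := (((Q_deriv q (1 - t)).comp_const_sub 1 t).sub_const (Q q 1)).neg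
    exact this.congr_deriv (by ring)
  · have ht2 := ht.2
    have ht1 := ht.1
    have e : |(1 : ℝ) - t| = 1 - t := abs_of_pos (by linarith)
    have := D3 q (x := 1 - t) (by rw [e]; linarith) (by rw [e]; linarith)
    rw [e] at this
    constructor <;> linarith [this.1, this.2]

lemma near3 {y : ℝ} (hy : y ∈ Icc (-(1 / 64) : ℝ) 0) :
    y + 3 / 2 * y ^ 2 ≤ Q q (3 - y) - Q q 3 ∧ Q q (3 - y) - Q q 3 ≤ y + 3 * y ^ 2 := by
  refine near_aux (G := fun y => Q q (3 - y) - Q q 3)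
    (G' := fun y => -(Q0' (3 - y) + E' q (3 - y))) (fun t => ?_) (by simp) (fun t ht => ?_) hy
  · exact ((Q_deriv q (3 - t)).comp_const_sub 3 t).sub_const (Q q 3)
  · have ht2 := ht.2
    have ht1 := ht.1
    have e : |(3 : ℝ) - t| = 3 - t := abs_of_pos (by linarith)
    have := D4 q (x := 3 - t) (by rw [e]; linarith) (by rw [e]; linarith)
    rw [e] at this
    constructor <;> linarith [this.1, this.2]

end

end Pool.Agent.KS6_66.WA.Neg
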