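import Pool.Agent.KS6_66.WA.NCode
import Pool.Agent.KS6_66.WA.Trap

/-! Negative Jacobian: the Cantor sets, the transitive set around them and the basin. -/

set_option autoImplicit false

namespace Pool.Agent.KS6_66.WA.Neg

open Set Filter Topology MeasureTheory

noncomputable section

variable (q : Par)

lemma sh_iter (s : AA) (k : ℕ) (n : ℤ) : (sh^[k] s).1 n = s.1 (n + k) := by
  induction k generalizing s with
  | zero => simp
  | succ k ih =>
    rw [Function.iterate_succ_apply, ih]
    show s.1 (n + k + 1) = _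
    rw [show n + (k : ℤ) + 1 = n + ((k + 1 : ℕ) : ℤ) by push_cast; ring]

lemma f_iter_code (s : AA) (k : ℕ) : (f q)^[k] (code q s) = code q (sh^[k] s) := by
  induction k generalizing s with
  | zero => rfl
  | succ k ih => rw [Function.iterate_succ_apply, f_code, ih, Function.iterate_succ_apply]

/-- The place `2 k + 1` of the itinerary carries the outer branch `t k`, the even places the
middle branch. -/
def H (t : ℤ → Bool) : AA :=
  ⟨fun n => if n % 2 = 0 then none else some (t (n / 2)), by
    intro n hn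
    simp only at hn ⊢
    split_ifs at hn with h
    · exact absurd rfl hn
    · rw [if_pos (by omega)]⟩

/-- As `H`, but an outer branch is used only if the sequence allows it. -/
def HT (t : ℤ → Bool) : AA :=
  ⟨fun n => if n % 2 = 0 then none else if t (2 * (n / 2)) = true then none else
    some (t (2 * (n / 2) + 1)), by
    intro n hn
    simp only at hn ⊢
    by_cases h : n % 2 = 0
    · rw [if_pos h] at hn
      exact absurd rfl hn
    · rw [if_pos (by omega)]⟩

lemma H_continuous : Continuous H := by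
  refine Continuous.subtype_mk (continuous_pi fun n => ?_) _
  by_cases h : n % 2 = 0
  · simp only [h, if_true]
    exact continuous_const
  · simp only [h, if_false]
    exact (continuous_of_discreteTopology (f := fun b : Bool => some b)).comp
      (continuous_apply (n / 2))

lemma HT_continuous : Continuous HT := by
  refine Continuous.subtype_mk (continuous_pi fun n => ?_) _
  by_cases h : n % 2 = 0
  · simp only [h, if_true]
    exact continuous_const
  · simp only [h, if_false]
    have hc : Continuous (fun b : Bool × Bool =>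
        (if b.1 = true then none else some b.2 : Option Bool)) := continuous_of_discreteTopology
    have hp : Continuous (fun t : ℤ → Bool => (t (2 * (n / 2)), t (2 * (n / 2) + 1))) :=
      (continuous_apply (2 * (n / 2))).prodMk (continuous_apply (2 * (n / 2) + 1))
    exact hc.comp hp

/-- The alternating sequence. -/
def alt (n : ℤ) : Bool := decide (n % 2 = 1)

/-- Flipping the alternating sequence. -/
def flip (v : ℤ → Bool) : ℤ → Bool := fun n => xor (alt n) (v n)

lemma flip_continuous : Continuous flip := by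
  refine continuous_pi fun n => ?_
  exact (continuous_of_discreteTopology (f := fun b : Bool => xor (alt n) b)).comp
    (continuous_apply n)

lemma flip_injective : Function.Injective flip := by
  intro u v h
  funext n
  have := congrFun h n
  unfold flip at this
  revert this
  cases alt n <;> cases u n <;> cases v n <;> decide

lemma H_injective : Function.Injective H := by
  intro u v h
  funext n
  have h1 := congrFun (congrArg Subtype.val h) (2 * n + 1)
  simp only [H] at h1
  rw [if_neg (by omega), if_neg (by omega), show (2 * n + 1) / 2 = n by omega] at h1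
  exact Option.some.inj h1

/-- The parametrization of the Cantor sets. -/
def G (v : ℤ → Bool) : ℝ × ℝ := code q (H (flip v))

/-- The parametrization of the transitive set. -/
def GT (v : ℤ → Bool) : ℝ × ℝ := code q (HT v)

lemma G_continuous : Continuous (G q) :=
  (code_continuous q).comp (H_continuous.comp flip_continuous)

lemma G_injective : Function.Injective (G q) :=
  (code_injective q).comp (H_injective.comp flip_injective)

lemma GT_continuous : Continuous (GT q) := (code_continuous q).comp HT_continuous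

lemma G_four (v : ℤ → Bool) : (f q)^[4] (G q v) = G q (shift^[2] v) := by
  unfold G
  rw [f_iter_code]
  congr 1
  apply Subtype.ext
  funext n
  rw [sh_iter]
  simp only [H]
  by_cases h : n % 2 = 0
  · rw [if_pos h, if_pos (by omega)]
  · rw [if_neg h, if_neg (by omega)]
    congr 1
    unfold flip
    rw [shift_iter]
    have e1 : (n + (4 : ℕ)) / 2 = n / 2 + (2 : ℕ) := by omega
    rw [e1]
    congr 1
    unfold alt
    congr 1
    simp only [eq_iff_iff]
    omega

lemma GT_four (v : ℤ → Bool) : (f q)^[4] (GT q v) = GT q (shift^[4] v) := by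
  unfold GT
  rw [f_iter_code]
  congr 1
  apply Subtype.ext
  funext n
  rw [sh_iter]
  simp only [HT]
  by_cases h : n % 2 = 0
  · rw [if_pos h, if_pos (by omega)]
  · rw [if_neg h, if_neg (by omega), shift_iter, shift_iter]
    have e1 : 2 * ((n + (4 : ℕ)) / 2) = 2 * (n / 2) + (4 : ℕ) := by omega
    rw [e1, show 2 * (n / 2) + ((4 : ℕ) : ℤ) + 1 = 2 * (n / 2) + 1 + (4 : ℕ) by ring]

/-- The Cantor sets. -/
def Lam (N : ℕ) : Set (ℝ × ℝ) := tow (f q) fun v => G q (retr N v)

/-- The transitive set. -/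
def TT : Set (ℝ × ℝ) := tow (f q) (GT q)

lemma Lam_transitive (N : ℕ) : IsTransitiveSet (f q) (Lam q N) :=
  tow_transitive (f_continuous q) ((G_continuous q).comp (retr_continuous N)) (k := 2) (l := 6)
    (by norm_num) fun v => by rw [G_four, retr_shift_iter]

lemma TT_transitive : IsTransitiveSet (f q) (TT q) :=
  tow_transitive (f_continuous q) (GT_continuous q) (k := 4) (l := 3) (by norm_num) (GT_four q)

lemma Lam_range (N : ℕ) : Lam q N ⊆ range (code q) := by
  intro z hz
  obtain ⟨j, _, v, rfl⟩ := mem_tow.1 hz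
  unfold G
  rw [f_iter_code]
  exact ⟨_, rfl⟩

lemma Lam_cantor (N : ℕ) : IsCantorSet (Lam q N) := by
  refine ⟨⟨G q (retr N fun _ => false), mem_tow.2 ⟨0, by norm_num, _, rfl⟩⟩,
    (Lam_transitive q N).1, tow_perfect (f_continuous q) (f_injective q) (G_continuous q)
      (G_injective q) N, ?_⟩
  intro t ht hpre
  exact range_totDisc q t (ht.trans (Lam_range q N)) hpre

lemma Lam_ssubset_TT (N : ℕ) : Lam q N ⊂ TT q := by
  refine ⟨?_, ?_⟩
  · intro z hz
    obtain ⟨j, hj, v, rfl⟩ := mem_tow.1 hz
    refine mem_tow.2 ⟨j, hj, fun n => if n % 2 = 0 then false else flip (retr N v) (n / 2), ?_⟩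
    congr 1
    unfold G GT
    congr 1
    apply Subtype.ext
    funext n
    simp only [H, HT]
    by_cases h : n % 2 = 0
    · rw [if_pos h, if_pos h]
    · have e0 : (2 * (n / 2)) % 2 = 0 := by omega
      have e1 : ¬ (2 * (n / 2) + 1) % 2 = 0 := by omega
      simp only [if_neg h, if_pos e0, if_neg e1, Bool.false_eq_true, if_false]
      rw [show (2 * (n / 2) + 1) / 2 = n / 2 by omega]
  · intro hsub
    have h1 : GT q (fun _ => true) ∈ Lam q N := hsub (mem_tow.2 ⟨0, by norm_num, _, rfl⟩)
    obtain ⟨j, _, v, hv⟩ := mem_tow.1 h1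
    unfold G GT at hv
    rw [f_iter_code] at hv
    have h2 := congrArg Subtype.val (code_injective q hv)
    have h3 := congrFun h2 (j + 1)
    rw [sh_iter] at h3
    simp only [H, HT] at h3
    rw [if_neg (by omega)] at h3
    simp at h3

lemma Lam_ssubset (N : ℕ) : Lam q (N + 1) ⊂ Lam q N := by
  have hS : ∀ s, s ∈ S (N + 1) → s ∈ S N := fun s hs n j h1 h2 => hs n j h1 (by omega)
  refine ⟨?_, ?_⟩
  · intro z hz
    obtain ⟨j, hj, v, rfl⟩ := mem_tow.1 hz
    refine mem_tow.2 ⟨j, hj, retr (N + 1) v, ?_⟩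
    rw [retr_of_mem N (hS _ (retr_mem (N + 1) v))]
  · intro h
    let u : ℤ → Bool := fun n => decide (n = 0 ∨ n = N + 1)
    have hu : u ∈ S N := by
      rintro n j h1 h2 ⟨h3, h4⟩
      simp only [u, decide_eq_true_eq] at h3 h4
      omega
    have h1 : G q u ∈ Lam q N := mem_tow.2 ⟨0, by norm_num, u, by rw [retr_of_mem N hu]; rfl⟩
    obtain ⟨j, hj, v, hv⟩ := mem_tow.1 (h h1)
    have hw := retr_mem (N + 1) v
    obtain ⟨w, hww⟩ : ∃ w, w = retr (N + 1) v := ⟨_, rfl⟩
    rw [← hww] at hv hw
    unfold G at hv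
    rw [f_iter_code] at hv
    have h2 := congrArg Subtype.val (code_injective q hv)
    have h3 : ∀ n, (H (flip w)).1 (n + j) = (H (flip u)).1 n := fun n => by
      rw [← sh_iter]; exact congrFun h2 n
    have hj2 : j = 0 ∨ j = 2 := by
      have h4 := h3 0
      simp only [H] at h4
      rw [if_pos (by norm_num : (0 : ℤ) % 2 = 0)] at h4
      by_contra hcon
      rw [if_neg (by omega)] at h4
      simp at h4
    rcases hj2 with rfl | rfl
    · have h4 : H (flip w) = H (flip u) := by
        apply Subtype.ext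
        funext n
        rw [← h3 n]
        simp
      have h5 : w = u := flip_injective (H_injective h4)
      rw [h5] at hw
      refine hw 0 (N + 1) (by omega) le_rfl ⟨?_, ?_⟩
      · simp [u]
      · simp [u]
    · have h4 : ∀ k : ℤ, u k = false → w (k + 1) = true := by
        intro k hk
        have h5 := h3 (2 * k + 1)
        simp only [H] at h5
        rw [if_neg (by omega), if_neg (by omega)] at h5
        have h6 := Option.some.inj h5
        rw [show (2 * k + 1 + ((2 : ℕ) : ℤ)) / 2 = k + 1 by omega,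
          show (2 * k + 1) / 2 = k by omega] at h6
        unfold flip at h6
        rw [hk] at h6
        have h7 : alt (k + 1) = !(alt k) := by
          unfold alt
          rw [← decide_not]
          congr 1
          simp only [eq_iff_iff]
          omega
        rw [h7] at h6
        revert h6
        cases alt k <;> cases w (k + 1) <;> decide
      have h5 := h4 (N + 2) (by simp only [u]; rw [decide_eq_false_iff_not]; omega)
      have h6 := h4 (N + 3) (by simp only [u]; rw [decide_eq_false_iff_not]; omega)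
      refine hw (N + 2 + 1) 1 le_rfl (by omega) ⟨h5, ?_⟩
      rw [← h6]
      congr 1

/-! ### The neutral cycle -/

/-- The points of the neutral cycle, and the sides on which the Cantor sets lie. -/
def cen (n : ℕ) : ℝ := if n % 4 = 0 then 3 else if n % 4 = 1 then -1 else if n % 4 = 2 then -3 else 1

/-- The signs. -/
def sgn (n : ℕ) : ℝ := if n % 4 = 0 then -1 else if n % 4 = 1 then 1 else if n % 4 = 2 then 1 else -1

lemma cen_two (n : ℕ) : cen (n + 2) = -cen n := by
  have h : n % 4 = 0 ∨ n % 4 = 1 ∨ n % 4 = 2 ∨ n % 4 = 3 := by omega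
  unfold cen
  rcases h with h | h | h | h
  · rw [show (n + 2) % 4 = 2 by omega, h]; norm_num
  · rw [show (n + 2) % 4 = 3 by omega, h]; norm_num
  · rw [show (n + 2) % 4 = 0 by omega, h]; norm_num
  · rw [show (n + 2) % 4 = 1 by omega, h]; norm_num

lemma sgn_two (n : ℕ) : sgn (n + 2) = -sgn n := by
  have h : n % 4 = 0 ∨ n % 4 = 1 ∨ n % 4 = 2 ∨ n % 4 = 3 := by omega
  unfold sgn
  rcases h with h | h | h | h
  · rw [show (n + 2) % 4 = 2 by omega, h]; norm_num
  · rw [show (n + 2) % 4 = 3 by omega, h]; norm_num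
  · rw [show (n + 2) % 4 = 0 by omega, h]; norm_num
  · rw [show (n + 2) % 4 = 1 by omega, h]; norm_num

lemma sgn_sq (n : ℕ) : sgn n * sgn n = 1 := by
  unfold sgn
  split_ifs <;> norm_num

lemma Q_cen (n : ℕ) : Q q (cen n) = cen (n + 1) := by
  have h : n % 4 = 0 ∨ n % 4 = 1 ∨ n % 4 = 2 ∨ n % 4 = 3 := by omega
  unfold cen
  rcases h with h | h | h | h
  · rw [show (n + 1) % 4 = 1 by omega, h]; norm_num; exact Q_three q
  · rw [show (n + 1) % 4 = 2 by omega, h]; norm_num; exact Q_neg_one q
  · rw [show (n + 1) % 4 = 3 by omega, h]; norm_num; exact Q_neg_three q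
  · rw [show (n + 1) % 4 = 0 by omega, h]; norm_num; exact Q_one q

/-- The outside maps of the cycle. -/
def hh (n : ℕ) (y : ℝ) : ℝ :=
  (1 + q.c) * (sgn (n + 2) * (Q q (cen (n + 1) + sgn (n + 1) * y) - Q q (cen (n + 1))))

lemma hh_bound (n : ℕ) {y : ℝ} (h1 : -(1 / 64) < y) (h2 : y < 0) :
    (1 + q.c) * y + 1 * y ^ 2 ≤ hh q n y ∧ hh q n y ≤ (1 + q.c) * y + 8 * y ^ 2 := by
  have hc0 := q.hc0
  have hc1 := q.hc1
  have hy : y ∈ Icc (-(1 / 64) : ℝ) 0 := ⟨h1.le, h2.le⟩
  have key : y + 3 / 2 * y ^ 2 ≤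
      sgn (n + 2) * (Q q (cen (n + 1) + sgn (n + 1) * y) - Q q (cen (n + 1))) ∧
      sgn (n + 2) * (Q q (cen (n + 1) + sgn (n + 1) * y) - Q q (cen (n + 1))) ≤
        y + 3 * y ^ 2 := by
    have h : n % 4 = 0 ∨ n % 4 = 1 ∨ n % 4 = 2 ∨ n % 4 = 3 := by omega
    unfold cen sgn
    rcases h with h | h | h | h
    · rw [show (n + 1) % 4 = 1 by omega, show (n + 2) % 4 = 2 by omega]
      have := near0 q hy
      norm_num at this ⊢
      exact this
    · rw [show (n + 1) % 4 = 2 by omega, show (n + 2) % 4 = 3 by omega]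
      have := near1 q hy
      norm_num at this ⊢
      exact this
    · rw [show (n + 1) % 4 = 3 by omega, show (n + 2) % 4 = 0 by omega]
      have := near2 q hy
      norm_num [← sub_eq_add_neg] at this ⊢
      exact this
    · rw [show (n + 1) % 4 = 0 by omega, show (n + 2) % 4 = 1 by omega]
      have := near3 q hy
      norm_num [← sub_eq_add_neg] at this ⊢
      exact this
  have hy2 : 0 ≤ y ^ 2 := sq_nonneg y
  have hcpos : 0 < 1 + q.c := by linarith
  have k1 := mul_le_mul_of_nonneg_left key.1 hcpos.le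
  have k2 := mul_le_mul_of_nonneg_left key.2 hcpos.le
  unfold hh
  have l1 : 0 ≤ q.c * y ^ 2 := by positivity
  have l2 : q.c * y ^ 2 ≤ 1 * y ^ 2 := mul_le_mul_of_nonneg_right hc1.le hy2
  constructor
  · refine le_trans ?_ k1
    linarith
  · refine le_trans k2 ?_
    linarith

/-- The slope constant. -/
def KK : ℝ := 2 * 8 / (1 - q.c)

/-- The size of the trapping region. -/
def ee : ℝ := 8 / (2 * KK q ^ 2)

lemma KK_ge : 16 ≤ KK q := by
  have hc0 := q.hc0
  have hc1 := q.hc1
  unfold KK
  rw [le_div_iff₀ (by linarith)]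
  linarith

lemma ee_pos : 0 < ee q := by
  have := KK_ge q
  unfold ee
  positivity

lemma ee_le : ee q ≤ 1 / 64 := by
  have h := KK_ge q
  unfold ee
  rw [div_le_iff₀ (by positivity)]
  nlinarith

/-- The trapping region near the point `(-1, 3)` of the cycle. -/
def R : Set (ℝ × ℝ) :=
  {z | -ee q < z.1 + 1 ∧ z.1 + 1 < 0 ∧ 0 < z.1 + 1 - (3 - z.2) ∧
    z.1 + 1 - (3 - z.2) < KK q * (z.1 + 1) ^ 2}

lemma R_open : IsOpen (R q) := by
  have c1 : Continuous fun z : ℝ × ℝ => z.1 + 1 := by fun_prop
  have c2 : Continuous fun z : ℝ × ℝ => z.1 + 1 - (3 - z.2) := by fun_prop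
  have c3 : Continuous fun z : ℝ × ℝ => KK q * (z.1 + 1) ^ 2 := by fun_prop
  exact (isOpen_lt continuous_const c1).inter ((isOpen_lt c1 continuous_const).inter
    ((isOpen_lt continuous_const c2).inter (isOpen_lt c2 c3)))

lemma R_nonempty : (R q).Nonempty := by
  have he := ee_pos q
  have hK := KK_ge q
  refine ⟨(-1 - ee q / 2, 3 + ee q / 2 + KK q * (ee q / 2) ^ 2 / 2), ?_⟩
  have h1 : 0 < KK q * (ee q / 2) ^ 2 := by positivity
  refine ⟨?_, ?_, ?_, ?_⟩
  · simp only; linarith
  · simp only; linarith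
  · simp only; linarith
  · simp only
    have : KK q * (-1 - ee q / 2 + 1) ^ 2 = KK q * (ee q / 2) ^ 2 := by ring
    rw [this]
    linarith

lemma R_tendsto {z : ℝ × ℝ} (hz : z ∈ R q) :
    Tendsto (fun n : ℕ => dist ((f q)^[n] z) (cen (n + 1), cen n)) atTop (𝓝 0) := by
  obtain ⟨h1, h2, h3, h4⟩ := hz
  have e1 : ∀ n, ((f q)^[n + 1] z).2 = ((f q)^[n] z).1 := fun n => by
    rw [Function.iterate_succ_apply', f_apply]
  have e2 : ∀ n, ((f q)^[n + 1] z).1 = P q ((f q)^[n] z).1 + q.c * ((f q)^[n] z).2 := fun n => by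
    rw [Function.iterate_succ_apply', f_apply]
  obtain ⟨y, hy⟩ : ∃ y : ℕ → ℝ, y = fun n => sgn n * (((f q)^[n] z).2 - cen n) := ⟨_, rfl⟩
  have hyn : ∀ n, y n = sgn n * (((f q)^[n] z).2 - cen n) := fun n => by rw [hy]
  have hinv : ∀ n, ((f q)^[n] z).2 = cen n + sgn n * y n := fun n => by
    rw [hyn, ← mul_assoc, sgn_sq]
    ring
  have hrec : ∀ n, y (n + 2) = hh q n (y (n + 1)) - q.c * y n := by
    intro n
    rw [hyn (n + 2), e1 (n + 1), e2, ← e1 n, hinv (n + 1), hinv n]
    unfold hh P
    rw [Q_cen q (n + 1), sgn_two n, show n + 1 + 1 = n + 2 by ring, cen_two n]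
    have := sgn_sq n
    linear_combination (-(q.c * y n)) * this
  have hy0 : y 0 = 3 - z.2 := by
    rw [hyn]
    simp [sgn, cen]
  have hy1 : y 1 = z.1 + 1 := by
    rw [hyn, e1]
    simp [sgn, cen]
  have ht := trap q.hc0 q.hc1 (A := 1) (B := 8) (K := KK q) (e := ee q) (by norm_num)
    (by norm_num) rfl rfl (hh q)
    (fun n x g1 g2 => hh_bound q n (by linarith [ee_le q]) g2) y hrec
    (by rw [hy1]; exact h1) (by rw [hy1]; exact h2) (by rw [hy1, hy0]; exact h3)
    (by rw [hy1, hy0]; exact h4)
  have hd : ∀ n, dist ((f q)^[n] z) (cen (n + 1), cen n) = max |y (n + 1)| |y n| := by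
    intro n
    rw [Prod.dist_eq, Real.dist_eq, Real.dist_eq]
    have g1 : ∀ n, |sgn n| = 1 := by
      intro n
      unfold sgn
      split_ifs <;> norm_num
    congr 1
    · rw [hyn, abs_mul, g1, one_mul, e1]
    · rw [hyn, abs_mul, g1, one_mul]
  have ht1 : Tendsto (fun n => |y n|) atTop (𝓝 0) := by
    have := ht.2.abs
    rwa [abs_zero] at this
  have ht2 : Tendsto (fun n => |y (n + 1)|) atTop (𝓝 0) :=
    (tendsto_add_atTop_iff_nat (f := fun n => |y n|) 1).2 ht1
  have := ht2.max ht1
  rw [max_self] at this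
  exact this.congr fun n => (hd n).symm

/-- Orbits approaching a compact set are in its basin. -/
lemma mem_basin_of_dist {F : ℝ × ℝ → ℝ × ℝ} {Λ : Set (ℝ × ℝ)} (hΛ : IsCompact Λ) {z : ℝ × ℝ}
    {u : ℕ → ℝ × ℝ} (hu : ∀ n, u n ∈ Λ)
    (ht : Tendsto (fun n : ℕ => dist (F^[n] z) (u n)) atTop (𝓝 0)) : z ∈ basin F Λ := by
  constructor
  · have hN : IsCompact (Metric.cthickening 1 Λ) := hΛ.cthickening
    have hev : ∀ᶠ n : ℕ in atTop, F^[n] z ∈ Metric.cthickening 1 Λ := by
      filter_upwards [ht.eventually (gt_mem_nhds (zero_lt_one (α := ℝ)))] with n hn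
      exact Metric.mem_cthickening_of_dist_le _ _ _ _ (hu n) hn.le
    obtain ⟨w, _, hw⟩ := hN.exists_mapClusterPt_of_frequently hev.frequently
    exact ⟨w, hw⟩
  · intro w hw
    have hw' : MapClusterPt w atTop (fun n : ℕ => F^[n] z) := hw
    by_contra hcon
    obtain ⟨δ, hδ, hball⟩ := Metric.isOpen_iff.1 hΛ.isClosed.isOpen_compl w hcon
    have h1 := (mapClusterPt_iff_frequently.1 hw') _ (Metric.ball_mem_nhds w (half_pos hδ))
    have h2 := ht.eventually (gt_mem_nhds (half_pos hδ))
    obtain ⟨n, hn1, hn2⟩ := (h1.and_eventually h2).exists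
    refine hball ?_ (hu n)
    rw [Metric.mem_ball] at hn1 ⊢
    calc dist (u n) w ≤ dist (u n) (F^[n] z) + dist (F^[n] z) w := dist_triangle _ _ _
      _ < δ / 2 + δ / 2 := by rw [dist_comm (u n)]; exact add_lt_add hn2 hn1
      _ = δ := by ring

/-- The neutral cycle as a full orbit. -/
def xs (n : ℤ) : ℝ := if n % 4 = 0 then -1 else if n % 4 = 1 then -3 else if n % 4 = 2 then 1 else 3

lemma xs_sol : Sol q (H (flip fun _ => false)).1 xs := by
  intro n
  have h : n % 4 = 0 ∨ n % 4 = 1 ∨ n % 4 = 2 ∨ n % 4 = 3 := by omega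
  simp only [H, flip, Bool.xor_false]
  unfold xs alt P
  rcases h with h | h | h | h
  · rw [show (n + 1) % 4 = 1 by omega, show (n - 1) % 4 = 3 by omega, h, if_pos (by omega)]
    norm_num
    refine ⟨⟨by norm_num, by norm_num⟩, ?_⟩
    rw [Q_neg_one]
    ring
  · rw [show (n + 1) % 4 = 2 by omega, show (n - 1) % 4 = 0 by omega, h, if_neg (by omega),
      show decide (n / 2 % 2 = 1) = false by rw [decide_eq_false_iff_not]; omega]
    norm_num
    refine ⟨⟨by norm_num, by norm_num⟩, ?_⟩
    rw [Q_neg_three]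
    ring
  · rw [show (n + 1) % 4 = 3 by omega, show (n - 1) % 4 = 1 by omega, h, if_pos (by omega)]
    norm_num
    refine ⟨⟨by norm_num, by norm_num⟩, ?_⟩
    rw [Q_one]
    ring
  · rw [show (n + 1) % 4 = 0 by omega, show (n - 1) % 4 = 2 by omega, h, if_neg (by omega),
      show decide (n / 2 % 2 = 1) = true by rw [decide_eq_true_iff]; omega]
    norm_num
    refine ⟨⟨by norm_num, by norm_num⟩, ?_⟩
    rw [Q_three]
    ring

lemma cyc_mem_zero (N : ℕ) : (cen 1, cen 0) ∈ Lam q N := by
  refine mem_tow.2 ⟨0, by norm_num, fun _ => false, ?_⟩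
  have h0 : (fun _ : ℤ => false) ∈ S N := fun n => by simp
  show G q (retr N fun _ => false) = _
  rw [retr_of_mem N h0]
  unfold G code
  rw [sol_unique q (X_sol q _) (xs_sol q)]
  simp [xs, cen]

lemma cyc_mem (N n : ℕ) : (cen (n + 1), cen n) ∈ Lam q N := by
  induction n with
  | zero => exact cyc_mem_zero q N
  | succ n ih =>
    have h1 : f q (cen (n + 1), cen n) = (cen (n + 1 + 1), cen (n + 1)) := by
      rw [f_apply]
      simp only [Prod.mk.injEq, and_true]
      unfold P
      rw [Q_cen, show n + 1 + 1 = n + 2 by ring, cen_two]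
      ring
    rw [← h1, ← (Lam_transitive q N).2.1]
    exact mem_image_of_mem _ ih

lemma R_basin (N : ℕ) : R q ⊆ basin (f q) (Lam q N) := fun _ hz =>
  mem_basin_of_dist (Lam_transitive q N).1 (cyc_mem q N) (R_tendsto q hz)

/-- The negative Jacobian half of the theorem. -/
theorem negative_half (b : ℝ) (hb0 : b < 0) (hb1 : -1 < b) (d : ℕ) (hd : 8 ≤ d) :
    ∃ (p : Polynomial ℝ) (Λ : ℕ → Set (ℝ × ℝ)) (U : Set (ℝ × ℝ)), p.natDegree = d ∧
      (∀ N, IsWildAttractor (henon p b) (Λ N) ∧ IsTransitiveSet (henon p b) (Λ N) ∧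
        Λ (N + 1) ⊂ Λ N ∧ U ⊆ basin (henon p b) (Λ N)) ∧ IsOpen U ∧ U.Nonempty := by
  obtain ⟨m, rfl⟩ : ∃ m, d = m + 8 := ⟨d - 8, by omega⟩
  let q : Par := ⟨-b, m, by linarith, by linarith⟩
  have hf : f q = henon (poly q) b := by
    unfold f
    congr 1
    show - -b = b
    ring
  refine ⟨poly q, fun N => Lam q N, R q, poly_natDegree q, fun N => ?_, R_open q, R_nonempty q⟩
  rw [← hf]
  refine ⟨⟨Lam_cantor q N, (Lam_transitive q N).2.1, ?_, TT q, TT_transitive q,
    Lam_ssubset_TT q N⟩, Lam_transitive q N, Lam_ssubset q N, R_basin q N⟩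
  exact ((R_open q).measure_pos volume (R_nonempty q)).trans_le (measure_mono (R_basin q _))

end

end Pool.Agent.KS6_66.WA.Neg
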