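import Pool.Agent.KS6_66.WA.Defs

/-! The polynomials for negative Jacobian `b = -c`: `P = (1 + c) Q`, where `Q` has the neutral
4-cycle `-1 → -3 → 1 → 3 → -1` with derivatives `1, -1, 1, -1`. -/

set_option autoImplicit false

namespace Pool.Agent.KS6_66.WA.Neg

open Set Filter Topology MeasureTheory

noncomputable section

/-- The parameters: the Jacobian `-c` and the degree `m + 8`. -/
structure Par where
  /-- minus the Jacobian -/
  c : ℝ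
  /-- the degree minus eight -/
  m : ℕ
  hc0 : 0 < c
  hc1 : c < 1

variable (q : Par)

/-- The polynomial of degree seven. -/
def Q0 (x : ℝ) : ℝ := (14175 * x - 4169 * x ^ 3 + 373 * x ^ 5 - 11 * x ^ 7) / 3456

/-- The perturbation of degree `m + 8`. -/
def E (x : ℝ) : ℝ := (x / 4) ^ q.m * ((x ^ 2 - 1) ^ 2 * (x ^ 2 - 9) ^ 2) / (35200 * (q.m + 1))

/-- The perturbed polynomial. -/
def Q (x : ℝ) : ℝ := Q0 x + E q x

/-- The polynomial of the Henon map. -/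
def P (x : ℝ) : ℝ := (1 + q.c) * Q q x

/-- The derivative of `Q0`. -/
def Q0' (x : ℝ) : ℝ := (14175 - 12507 * x ^ 2 + 1865 * x ^ 4 - 77 * x ^ 6) / 3456

lemma Q0_deriv (x : ℝ) : HasDerivAt Q0 (Q0' x) x := by
  unfold Q0 Q0'
  have h := ((((hasDerivAt_id x).const_mul 14175).sub ((hasDerivAt_pow 3 x).const_mul 4169)).add
    ((hasDerivAt_pow 5 x).const_mul 373)).sub ((hasDerivAt_pow 7 x).const_mul 11)
  have h2 := h.div_const 3456
  refine HasDerivAt.congr_deriv (f := fun x : ℝ => (14175 * x - 4169 * x ^ 3 + 373 * x ^ 5 -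
    11 * x ^ 7) / 3456) h2 ?_
  norm_num
  ring

/-- The derivative of `E`. -/
def E' (x : ℝ) : ℝ :=
  ((x ^ 2 - 1) * (x ^ 2 - 9)) * ((q.m * (x / 4) ^ (q.m - 1) * (1 / 4)) * ((x ^ 2 - 1) * (x ^ 2 - 9))
    + (x / 4) ^ q.m * (4 * x * (2 * x ^ 2 - 10))) / (35200 * (q.m + 1))

lemma E_deriv (x : ℝ) : HasDerivAt (E q) (E' q x) x := by
  unfold E E'
  have h1 : HasDerivAt (fun x : ℝ => (x / 4) ^ q.m)
      (q.m * (x / 4) ^ (q.m - 1) * (1 / 4)) x := by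
    have := ((hasDerivAt_id x).div_const 4).pow q.m
    exact HasDerivAt.congr_deriv (f := fun x : ℝ => (x / 4) ^ q.m) this (by simp only [id])
  have h2 : HasDerivAt (fun x : ℝ => (x ^ 2 - 1) ^ 2 * (x ^ 2 - 9) ^ 2)
      ((x ^ 2 - 1) * (x ^ 2 - 9) * (4 * x * (2 * x ^ 2 - 10))) x := by
    have ha : HasDerivAt (fun x : ℝ => x ^ 2 - 1) (2 * x) x := by
      have := (hasDerivAt_pow 2 x).sub_const 1
      simpa using this
    have hb : HasDerivAt (fun x : ℝ => x ^ 2 - 9) (2 * x) x := by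
      have := (hasDerivAt_pow 2 x).sub_const 9
      simpa using this
    have := (ha.pow 2).mul (hb.pow 2)
    refine HasDerivAt.congr_deriv (f := fun x : ℝ => (x ^ 2 - 1) ^ 2 * (x ^ 2 - 9) ^ 2) this ?_
    simp only [Pi.pow_apply]
    push_cast
    ring
  have h3 := (h1.mul h2).div_const (35200 * ((q.m : ℝ) + 1))
  refine HasDerivAt.congr_deriv (f := fun x : ℝ => (x / 4) ^ q.m *
    ((x ^ 2 - 1) ^ 2 * (x ^ 2 - 9) ^ 2) / (35200 * ((q.m : ℝ) + 1))) h3 ?_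
  ring

lemma E'_bound {x : ℝ} (hx : |x| ≤ 4) : |E' q x| ≤ 1 / 100 * (|x ^ 2 - 1| * |x ^ 2 - 9|) := by
  have hm : (0 : ℝ) < 35200 * (q.m + 1) := by positivity
  have hm0 : (0 : ℝ) ≤ q.m := Nat.cast_nonneg _
  have hx4 : |x / 4| ≤ 1 := by rw [abs_div]; norm_num; linarith
  have hp : ∀ k : ℕ, |(x / 4) ^ k| ≤ 1 := fun k => by
    rw [abs_pow]; exact pow_le_one₀ (abs_nonneg _) hx4
  have hx2 : x ^ 2 ≤ 16 := by
    have := sq_abs x
    nlinarith [abs_nonneg x]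
  have h0 : 0 ≤ x ^ 2 := sq_nonneg x
  have e1 : |x ^ 2 - 1| ≤ 15 := by rw [abs_le]; constructor <;> linarith
  have e9 : |x ^ 2 - 9| ≤ 9 := by rw [abs_le]; constructor <;> linarith
  have e10 : |2 * x ^ 2 - 10| ≤ 22 := by rw [abs_le]; constructor <;> linarith
  have b1 : |((q.m : ℝ) * (x / 4) ^ (q.m - 1) * (1 / 4)) * ((x ^ 2 - 1) * (x ^ 2 - 9))| ≤
      (q.m : ℝ) * 34 := by
    rw [abs_mul, abs_mul, abs_mul, abs_mul, abs_of_nonneg hm0]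
    have h1 : |x ^ 2 - 1| * |x ^ 2 - 9| ≤ 15 * 9 :=
      mul_le_mul e1 e9 (abs_nonneg _) (by norm_num)
    have h2 : (q.m : ℝ) * |(x / 4) ^ (q.m - 1)| * |(1 / 4 : ℝ)| ≤ q.m * 1 * (1 / 4) := by
      rw [abs_of_pos (by norm_num : (0 : ℝ) < 1 / 4)]
      exact mul_le_mul_of_nonneg_right (mul_le_mul_of_nonneg_left (hp _) hm0) (by norm_num)
    calc (q.m : ℝ) * |(x / 4) ^ (q.m - 1)| * |(1 / 4 : ℝ)| * (|x ^ 2 - 1| * |x ^ 2 - 9|)
        ≤ (q.m * 1 * (1 / 4)) * (15 * 9) := mul_le_mul h2 h1 (by positivity) (by positivity)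
      _ ≤ q.m * 34 := by linarith
  have b2 : |(x / 4) ^ q.m * (4 * x * (2 * x ^ 2 - 10))| ≤ 352 := by
    rw [abs_mul, abs_mul, abs_mul]
    have h1 : |(4 : ℝ)| * |x| ≤ 16 := by
      rw [abs_of_pos (by norm_num : (0 : ℝ) < 4)]; linarith
    have h2 : |(4 : ℝ)| * |x| * |2 * x ^ 2 - 10| ≤ 16 * 22 :=
      mul_le_mul h1 e10 (abs_nonneg _) (by norm_num)
    calc |(x / 4) ^ q.m| * (|(4 : ℝ)| * |x| * |2 * x ^ 2 - 10|) ≤ 1 * (16 * 22) :=
          mul_le_mul (hp _) h2 (by positivity) (by norm_num)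
      _ = 352 := by norm_num
  have b3 := (abs_add_le (((q.m : ℝ) * (x / 4) ^ (q.m - 1) * (1 / 4)) * ((x ^ 2 - 1) * (x ^ 2 - 9)))
    ((x / 4) ^ q.m * (4 * x * (2 * x ^ 2 - 10)))).trans (add_le_add b1 b2)
  unfold E'
  rw [abs_div, abs_of_pos hm, div_le_iff₀ hm, abs_mul, abs_mul (x ^ 2 - 1)]
  have h5 : 0 ≤ |x ^ 2 - 1| * |x ^ 2 - 9| := by positivity
  calc |x ^ 2 - 1| * |x ^ 2 - 9| * _ ≤ |x ^ 2 - 1| * |x ^ 2 - 9| * ((q.m : ℝ) * 34 + 352) :=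
        mul_le_mul_of_nonneg_left b3 h5
    _ ≤ |x ^ 2 - 1| * |x ^ 2 - 9| * (352 * ((q.m : ℝ) + 1)) :=
        mul_le_mul_of_nonneg_left (by linarith) h5
    _ = 1 / 100 * (|x ^ 2 - 1| * |x ^ 2 - 9|) * (35200 * ((q.m : ℝ) + 1)) := by ring

lemma Q_deriv (x : ℝ) : HasDerivAt (Q q) (Q0' x + E' q x) x := (Q0_deriv x).add (E_deriv q x)

lemma Q_continuous : Continuous (Q q) := by
  rw [continuous_iff_continuousAt]
  exact fun x => (Q_deriv q x).continuousAt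

lemma P_continuous : Continuous (P q) := (Q_continuous q).const_mul _

/-- the derivative in the middle branch -/
lemma D1 {x : ℝ} (hx : |x| ≤ 1) : 1 + 2 * (1 - x ^ 2) ≤ Q0' x + E' q x := by
  have h := (abs_le.1 (E'_bound q (hx.trans (by norm_num)))).1
  have hx2 : x ^ 2 ≤ 1 := by
    have := sq_abs x
    nlinarith [abs_nonneg x]
  have h0 : 0 ≤ x ^ 2 := sq_nonneg x
  rw [abs_of_nonpos (by linarith : x ^ 2 - 1 ≤ 0), abs_of_nonpos (by linarith : x ^ 2 - 9 ≤ 0)] at h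
  obtain ⟨s, hs⟩ : ∃ s, s = x ^ 2 := ⟨_, rfl⟩
  have e : Q0' x = 1 + (1 - s) * (10719 - 1788 * s + 77 * s ^ 2) / 3456 := by
    rw [hs]; unfold Q0'; ring
  rw [← hs] at h hx2 h0 ⊢
  rw [e]
  have h1 : (1 - s) * 8931 ≤ (1 - s) * (10719 - 1788 * s + 77 * s ^ 2) :=
    mul_le_mul_of_nonneg_left (by nlinarith) (by linarith)
  have h2 : -(s - 1) * -(s - 9) ≤ (1 - s) * 9 := by nlinarith
  linarith

/-- the derivative in the outer branches -/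
lemma D2 {x : ℝ} (hx : 2 ≤ |x|) (hx' : |x| ≤ 3) :
    Q0' x + E' q x ≤ -1 - 3 / 10 * (9 - x ^ 2) := by
  have h := (abs_le.1 (E'_bound q (hx'.trans (by norm_num)))).2
  have hx2 : x ^ 2 ≤ 9 := by
    have := sq_abs x
    nlinarith [abs_nonneg x]
  have h0 : 4 ≤ x ^ 2 := by
    have := sq_abs x
    nlinarith [abs_nonneg x]
  rw [abs_of_nonneg (by linarith : 0 ≤ x ^ 2 - 1), abs_of_nonpos (by linarith : x ^ 2 - 9 ≤ 0)] at h
  obtain ⟨s, hs⟩ : ∃ s, s = x ^ 2 := ⟨_, rfl⟩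
  have e : Q0' x = -1 + (9 - s) * (1959 - 1172 * s + 77 * s ^ 2) / 3456 := by
    rw [hs]; unfold Q0'; ring
  rw [← hs] at h hx2 h0 ⊢
  rw [e]
  have h1 : (9 - s) * (1959 - 1172 * s + 77 * s ^ 2) ≤ (9 - s) * (-1497) :=
    mul_le_mul_of_nonneg_left (by nlinarith) (by linarith)
  have h2 : (s - 1) * -(s - 9) ≤ 8 * (9 - s) := by nlinarith
  linarith

/-- the derivative outside `±1` -/
lemma D3 {x : ℝ} (hx : 1 ≤ |x|) (hx' : |x| ≤ 1 + 1 / 64) :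
    1 - 6 * (|x| - 1) ≤ Q0' x + E' q x ∧ Q0' x + E' q x ≤ 1 - 3 * (|x| - 1) := by
  have h := abs_le.1 (E'_bound q (hx'.trans (by norm_num)))
  have hsq : |x| ^ 2 = x ^ 2 := sq_abs x
  have hx2 : x ^ 2 ≤ 1 + 33 / 1000 := by nlinarith
  have h0 : 1 ≤ x ^ 2 := by nlinarith
  rw [abs_of_nonneg (by linarith : 0 ≤ x ^ 2 - 1), abs_of_nonpos (by linarith : x ^ 2 - 9 ≤ 0)] at h
  obtain ⟨s, hs⟩ : ∃ s, s = x ^ 2 := ⟨_, rfl⟩
  have e : Q0' x = 1 - (s - 1) * (10719 - 1788 * s + 77 * s ^ 2) / 3456 := by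
    rw [hs]; unfold Q0'; ring
  rw [← hs] at h hx2 h0 hsq
  have h1 : (s - 1) * (10719 - 1788 * s + 77 * s ^ 2) ≤ (s - 1) * 9100 :=
    mul_le_mul_of_nonneg_left (by nlinarith) (by linarith)
  have h1' : (s - 1) * 8800 ≤ (s - 1) * (10719 - 1788 * s + 77 * s ^ 2) :=
    mul_le_mul_of_nonneg_left (by nlinarith) (by linarith)
  have h2 : (s - 1) * -(s - 9) ≤ 8 * (s - 1) := by nlinarith
  have h3 : 2 * (|x| - 1) ≤ s - 1 := by nlinarith
  have h4 : s - 1 ≤ 202 / 100 * (|x| - 1) := by nlinarith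
  rw [e]
  constructor <;> linarith [h.1, h.2]

/-- the derivative outside `±3` -/
lemma D4 {x : ℝ} (hx : 3 ≤ |x|) (hx' : |x| ≤ 3 + 1 / 64) :
    -1 + 3 * (|x| - 3) ≤ Q0' x + E' q x ∧ Q0' x + E' q x ≤ -1 + 6 * (|x| - 3) := by
  have h := abs_le.1 (E'_bound q (hx'.trans (by norm_num)))
  have hsq : |x| ^ 2 = x ^ 2 := sq_abs x
  have hx2 : x ^ 2 ≤ 9 + 1 / 10 := by nlinarith
  have h0 : 9 ≤ x ^ 2 := by nlinarith
  rw [abs_of_nonneg (by linarith : 0 ≤ x ^ 2 - 1),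
    abs_of_nonneg (by linarith : 0 ≤ x ^ 2 - 9)] at h
  obtain ⟨s, hs⟩ : ∃ s, s = x ^ 2 := ⟨_, rfl⟩
  have e : Q0' x = -1 + (s - 9) * (-1959 + 1172 * s - 77 * s ^ 2) / 3456 := by
    rw [hs]; unfold Q0'; ring
  rw [← hs] at h hx2 h0 hsq
  have h1 : (s - 9) * (-1959 + 1172 * s - 77 * s ^ 2) ≤ (s - 9) * 2400 :=
    mul_le_mul_of_nonneg_left (by nlinarith) (by linarith)
  have h1' : (s - 9) * 2300 ≤ (s - 9) * (-1959 + 1172 * s - 77 * s ^ 2) :=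
    mul_le_mul_of_nonneg_left (by nlinarith) (by linarith)
  have h2 : (s - 1) * (s - 9) ≤ 9 * (s - 9) := by nlinarith
  have h3 : 6 * (|x| - 3) ≤ s - 9 := by nlinarith
  have h4 : s - 9 ≤ 602 / 100 * (|x| - 3) := by nlinarith
  rw [e]
  constructor <;> linarith [h.1, h.2]

end

end Pool.Agent.KS6_66.WA.Neg
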