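import Pool.Agent.KS6_66.WA.Defs

/-! The polynomials `x (1 - x) (1 + b + 24 x + x ^ m / (m + 1))`, `0 < b < 1`, `m ≥ 1`. -/

set_option autoImplicit false

namespace Pool.Agent.KS6_66.WA

open Set Filter Topology MeasureTheory

noncomputable section

/-- The parameters: the Jacobian `b` and the degree `m + 2`. -/
structure Par where
  /-- the Jacobian -/
  b : ℝ
  /-- the degree minus two -/
  m : ℕ
  hb0 : 0 < b
  hb1 : b < 1
  hm : 1 ≤ m

variable (q : Par)

/-- The polynomial `x (1 - x) (1 + b + 24 x + x ^ m / (m + 1))`. -/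
def P (x : ℝ) : ℝ := x * (1 - x) * (1 + q.b + 24 * x + x ^ q.m / (q.m + 1))

/-- The two branch intervals. -/
def I (i : Bool) : Set ℝ := if i then Icc (9 / 10) 1 else Icc 0 (1 / 3)

lemma I_sub (i : Bool) {x : ℝ} (h : x ∈ I i) : 0 ≤ x ∧ x ≤ 1 := by
  cases i
  · simp only [I, Bool.false_eq_true, if_false, mem_Icc] at h
    constructor <;> linarith [h.1, h.2]
  · simp only [I, if_true, mem_Icc] at h
    constructor <;> linarith [h.1, h.2]

lemma P_continuous : Continuous (P q) := by unfold P; fun_prop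

/-- the last term -/
def tt (x : ℝ) : ℝ := x ^ (q.m + 1) * (1 - x) / (q.m + 1)

lemma P_eq (x : ℝ) : P q x = x * (1 - x) * (1 + q.b + 24 * x) + tt q x := by
  unfold P tt
  rw [pow_succ]
  ring

lemma pow_diff {x y : ℝ} (n : ℕ) (hy : 0 ≤ y) (hxy : y ≤ x) (hx : x ≤ 1) :
    y ^ n * (x - y) ≤ x ^ (n + 1) - y ^ (n + 1) ∧ x ^ (n + 1) - y ^ (n + 1) ≤ (n + 1) * (x - y) := by
  have hx0 : 0 ≤ x := hy.trans hxy
  induction n with
  | zero => constructor <;> simp
  | succ n ih =>
    have e1 : x ^ (n + 1 + 1) - y ^ (n + 1 + 1) =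
        x * (x ^ (n + 1) - y ^ (n + 1)) + y ^ (n + 1) * (x - y) := by ring
    have h1 : y ^ (n + 1) ≤ 1 := pow_le_one₀ hy (hxy.trans hx)
    have h2 : 0 ≤ y ^ (n + 1) := by positivity
    have h3 : 0 ≤ x - y := by linarith
    have h4 : 0 ≤ x ^ (n + 1) - y ^ (n + 1) :=
      le_trans (mul_nonneg (by positivity) h3) ih.1
    constructor
    · rw [e1]
      have := mul_nonneg hx0 h4
      linarith
    · rw [e1]
      have h5 : x * (x ^ (n + 1) - y ^ (n + 1)) ≤ 1 * (x ^ (n + 1) - y ^ (n + 1)) :=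
        mul_le_mul_of_nonneg_right hx h4
      have h6 : y ^ (n + 1) * (x - y) ≤ 1 * (x - y) := mul_le_mul_of_nonneg_right h1 h3
      push_cast
      linarith [ih.2]

lemma tt_diff {x y : ℝ} (hy : 0 ≤ y) (hxy : y ≤ x) (hx : x ≤ 1) :
    |tt q x - tt q y| ≤ x - y := by
  obtain ⟨h1, h2⟩ := pow_diff q.m hy hxy hx
  have hm : (0 : ℝ) < q.m + 1 := by positivity
  have e : tt q x - tt q y =
      ((x ^ (q.m + 1) - y ^ (q.m + 1)) * (1 - x) - y ^ (q.m + 1) * (x - y)) / (q.m + 1) := by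
    unfold tt; ring
  have h3 : 0 ≤ x - y := by linarith
  have h4 : 0 ≤ x ^ (q.m + 1) - y ^ (q.m + 1) := le_trans (mul_nonneg (by positivity) h3) h1
  have h5 : (x ^ (q.m + 1) - y ^ (q.m + 1)) * (1 - x) ≤ (q.m + 1) * (x - y) := by
    have : (x ^ (q.m + 1) - y ^ (q.m + 1)) * (1 - x) ≤ (x ^ (q.m + 1) - y ^ (q.m + 1)) * 1 :=
      mul_le_mul_of_nonneg_left (by linarith) h4
    linarith
  have h6 : 0 ≤ (x ^ (q.m + 1) - y ^ (q.m + 1)) * (1 - x) := mul_nonneg h4 (by linarith)
  have h7 : y ^ (q.m + 1) * (x - y) ≤ 1 * (x - y) :=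
    mul_le_mul_of_nonneg_right (pow_le_one₀ hy (hxy.trans hx)) h3
  have h8 : 0 ≤ y ^ (q.m + 1) * (x - y) := by positivity
  have h9 : 1 * (x - y) ≤ (q.m + 1) * (x - y) :=
    mul_le_mul_of_nonneg_right (by have : (0 : ℝ) ≤ q.m := Nat.cast_nonneg _; linarith) h3
  rw [e, abs_div, abs_of_pos hm, div_le_iff₀ hm, abs_le]
  constructor <;> nlinarith

lemma tt_mono {x y : ℝ} (hy : 0 ≤ y) (hxy : y ≤ x) (hx : x ≤ 1 / 3) : 0 ≤ tt q x - tt q y := by
  obtain ⟨h1, h2⟩ := pow_diff q.m hy hxy (by linarith)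
  have e : tt q x - tt q y =
      ((x ^ (q.m + 1) - y ^ (q.m + 1)) * (1 - x) - y ^ (q.m + 1) * (x - y)) / (q.m + 1) := by
    unfold tt; ring
  rw [e]
  apply div_nonneg _ (by positivity)
  have h3 : 0 ≤ x - y := by linarith
  have h4 : 0 ≤ y ^ q.m * (x - y) := by positivity
  have h5 : (y ^ q.m * (x - y)) * (1 - x) ≤ (x ^ (q.m + 1) - y ^ (q.m + 1)) * (1 - x) :=
    mul_le_mul_of_nonneg_right h1 (by linarith)
  have h6 : y ^ (q.m + 1) * (x - y) = (y ^ q.m * (x - y)) * y := by ring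
  have h7 : (y ^ q.m * (x - y)) * y ≤ (y ^ q.m * (x - y)) * (1 - x) :=
    mul_le_mul_of_nonneg_left (by linarith) h4
  linarith

lemma tt_nonneg {x : ℝ} (h0 : 0 ≤ x) (h1 : x ≤ 1) : 0 ≤ tt q x := by
  unfold tt
  have : 0 ≤ 1 - x := by linarith
  positivity

/-- The uniform weak expansion on each branch. -/
lemma P_expand (i : Bool) {x y : ℝ} (hx : x ∈ I i) (hy : y ∈ I i) :
    |x - y| * (1 + q.b + 6 * |x - y|) ≤ |P q x - P q y| := by
  wlog hxy : y ≤ x generalizing x y
  · have := this hy hx (by linarith)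
    rwa [abs_sub_comm x y, abs_sub_comm (P q x) (P q y)]
  have h0 : 0 ≤ x - y := by linarith
  have hb0 := q.hb0
  have hb1 := q.hb1
  rw [abs_of_nonneg h0]
  have hP : P q x - P q y = (x - y) * (1 + q.b + (23 - q.b) * (x + y)
      - 24 * (x ^ 2 + x * y + y ^ 2)) + (tt q x - tt q y) := by
    rw [P_eq, P_eq]; ring
  cases i
  · simp only [I, Bool.false_eq_true, if_false, mem_Icc] at hx hy
    have h1 : 1 + q.b + 6 * (x - y) ≤ 1 + q.b + (23 - q.b) * (x + y)
      - 24 * (x ^ 2 + x * y + y ^ 2) := by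
      have h2 : 22 * (x + y) ≤ (23 - q.b) * (x + y) :=
        mul_le_mul_of_nonneg_right (by linarith) (by linarith [hx.1, hy.1])
      nlinarith [mul_nonneg hx.1 hy.1, mul_nonneg (sub_nonneg.2 hx.2) hx.1,
        mul_nonneg (sub_nonneg.2 hy.2) hy.1, mul_nonneg (sub_nonneg.2 hy.2) hx.1,
        mul_nonneg (sub_nonneg.2 hx.2) hy.1]
    rw [hP]
    have h3 := tt_mono q hy.1 hxy hx.2
    calc (x - y) * (1 + q.b + 6 * (x - y)) ≤ _ := mul_le_mul_of_nonneg_left h1 h0
      _ ≤ _ + (tt q x - tt q y) := le_add_of_nonneg_right h3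
      _ ≤ _ := le_abs_self _
  · simp only [I, if_true, mem_Icc] at hx hy
    have h1 : 1 + q.b + 6 * (x - y) + 1 ≤
        -(1 + q.b + (23 - q.b) * (x + y) - 24 * (x ^ 2 + x * y + y ^ 2)) := by
      have h2 : (23 - q.b) * (x + y) ≤ 23 * (x + y) :=
        mul_le_mul_of_nonneg_right (by linarith) (by linarith [hx.1, hy.1])
      nlinarith [mul_nonneg (sub_nonneg.2 hx.1) (sub_nonneg.2 hy.1), sq_nonneg (x - 9/10),
        sq_nonneg (y - 9/10)]
    rw [hP]
    have h3 := (abs_le.1 (tt_diff q (x := x) (y := y) (by linarith [hy.1]) hxy hx.2)).2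
    have h4 : (x - y) * (1 + q.b + 6 * (x - y) + 1) ≤ (x - y) *
        -(1 + q.b + (23 - q.b) * (x + y) - 24 * (x ^ 2 + x * y + y ^ 2)) :=
      mul_le_mul_of_nonneg_left h1 h0
    calc (x - y) * (1 + q.b + 6 * (x - y)) ≤ -((x - y) * (1 + q.b + (23 - q.b) * (x + y)
            - 24 * (x ^ 2 + x * y + y ^ 2)) + (tt q x - tt q y)) := by nlinarith
      _ ≤ _ := neg_le_abs _

/-- From a bound on the images to a bound on the arguments. -/
lemma step_bound (i : Bool) {x y D : ℝ} (k : ℕ) (hx : x ∈ I i) (hy : y ∈ I i)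
    (hD : |P q x - P q y| ≤ (1 + q.b) * D) (hk : D ≤ 1 / ((k : ℝ) + 1)) :
    |x - y| ≤ 1 / ((k : ℝ) + 2) := by
  by_contra hcon
  push Not at hcon
  have hb0 := q.hb0
  have hb1 := q.hb1
  have h1 := P_expand q i hx hy
  have hk0 : (0 : ℝ) ≤ k := Nat.cast_nonneg k
  have h2 : 0 < 1 / ((k : ℝ) + 2) := by positivity
  have h3 : 1 / ((k : ℝ) + 2) * (1 + q.b + 6 * (1 / ((k : ℝ) + 2))) <
      |x - y| * (1 + q.b + 6 * |x - y|) := by
    apply mul_lt_mul'' hcon _ h2.le (by positivity)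
    linarith
  have h4 : (1 + q.b) * (1 / ((k : ℝ) + 1)) ≤
      1 / ((k : ℝ) + 2) * (1 + q.b + 6 * (1 / ((k : ℝ) + 2))) := by
    rw [show (1 + q.b) * (1 / ((k : ℝ) + 1)) = (1 + q.b) / (k + 1) by ring,
      show 1 / ((k : ℝ) + 2) * (1 + q.b + 6 * (1 / ((k : ℝ) + 2))) =
        ((1 + q.b) * (k + 2) + 6) / ((k + 2) * (k + 2)) by field_simp,
      div_le_div_iff₀ (by positivity) (by positivity)]
    nlinarith [mul_nonneg hk0 hb0.le]
  have : (1 + q.b) * D ≤ (1 + q.b) * (1 / ((k : ℝ) + 1)) :=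
    mul_le_mul_of_nonneg_left hk (by linarith)
  linarith

lemma P_zero : P q 0 = 0 := by unfold P; ring

lemma P_one : P q 1 = 0 := by unfold P; ring

lemma exists_branch (i : Bool) (u : ℝ) (h0 : 0 ≤ u) (h1 : u ≤ 1 + q.b) :
    ∃ x ∈ I i, P q x = u := by
  have hb0 := q.hb0
  have hb1 := q.hb1
  cases i
  · have h : Icc (P q 0) (P q (1 / 3)) ⊆ P q '' Icc 0 (1 / 3) :=
      intermediate_value_Icc (by norm_num) (P_continuous q).continuousOn
    have h2 : u ∈ Icc (P q 0) (P q (1 / 3)) := by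
      constructor
      · rw [P_zero]; exact h0
      · rw [P_eq]
        have := tt_nonneg q (x := 1 / 3) (by norm_num) (by norm_num)
        linarith
    obtain ⟨x, hx, hxu⟩ := h h2
    exact ⟨x, by simpa only [I, Bool.false_eq_true, if_false] using hx, hxu⟩
  · have h : Icc (P q 1) (P q (9 / 10)) ⊆ P q '' Icc (9 / 10) 1 :=
      intermediate_value_Icc' (by norm_num) (P_continuous q).continuousOn
    have h2 : u ∈ Icc (P q 1) (P q (9 / 10)) := by
      constructor
      · rw [P_one]; exact h0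
      · rw [P_eq]
        have := tt_nonneg q (x := 9 / 10) (by norm_num) (by norm_num)
        linarith
    obtain ⟨x, hx, hxu⟩ := h h2
    exact ⟨x, by simpa only [I, if_true] using hx, hxu⟩

/-- The polynomial of the Henon map. -/
def poly : Polynomial ℝ :=
  Polynomial.X * (1 - Polynomial.X) * (Polynomial.C (1 + q.b) + Polynomial.C 24 * Polynomial.X
    + Polynomial.C (1 / ((q.m : ℝ) + 1)) * Polynomial.X ^ q.m)

lemma poly_eval (x : ℝ) : (poly q).eval x = P q x := by
  unfold poly P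
  simp only [Polynomial.eval_mul, Polynomial.eval_X, Polynomial.eval_sub, Polynomial.eval_one,
    Polynomial.eval_add, Polynomial.eval_C, Polynomial.eval_pow]
  ring

lemma poly_natDegree : (poly q).natDegree = q.m + 2 := by
  have hm := q.hm
  have hm0 : (0 : ℝ) < 1 / ((q.m : ℝ) + 1) := by positivity
  have h1 : (Polynomial.C (1 + q.b) + Polynomial.C 24 * Polynomial.X
    + Polynomial.C (1 / ((q.m : ℝ) + 1)) * Polynomial.X ^ q.m : Polynomial ℝ).natDegree = q.m := by
    apply Polynomial.natDegree_eq_of_le_of_coeff_ne_zero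
    · apply (Polynomial.natDegree_add_le _ _).trans
      apply max_le
      · apply (Polynomial.natDegree_add_le _ _).trans
        apply max_le
        · simp
        · exact (Polynomial.natDegree_C_mul_le _ _).trans (Polynomial.natDegree_X.le.trans hm)
      · exact Polynomial.natDegree_C_mul_X_pow_le _ _
    · rw [Polynomial.coeff_add, Polynomial.coeff_add, Polynomial.coeff_C_mul_X_pow,
        Polynomial.coeff_C_mul_X, Polynomial.coeff_C]
      simp only [if_true]
      have h2 : (0 : ℝ) ≤ (if q.m = 0 then 1 + q.b else 0) := by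
        split_ifs
        · linarith [q.hb0]
        · exact le_rfl
      have h3 : (0 : ℝ) ≤ (if q.m = 1 then 24 else 0) := by split_ifs <;> norm_num
      positivity
  have h2 : (1 - Polynomial.X : Polynomial ℝ).natDegree = 1 := by
    have : (1 - Polynomial.X : Polynomial ℝ) = -(Polynomial.X - Polynomial.C 1) := by simp
    rw [this, Polynomial.natDegree_neg, Polynomial.natDegree_X_sub_C]
  have h3 : (1 - Polynomial.X : Polynomial ℝ) ≠ 0 := by
    intro h
    rw [h] at h2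
    simp at h2
  have h4 : (Polynomial.C (1 + q.b) + Polynomial.C 24 * Polynomial.X
    + Polynomial.C (1 / ((q.m : ℝ) + 1)) * Polynomial.X ^ q.m : Polynomial ℝ) ≠ 0 := by
    intro h
    rw [h] at h1
    simp at h1
    omega
  unfold poly
  rw [Polynomial.natDegree_mul (mul_ne_zero Polynomial.X_ne_zero h3) h4,
    Polynomial.natDegree_mul Polynomial.X_ne_zero h3, h1, h2, Polynomial.natDegree_X]
  omega

end

end Pool.Agent.KS6_66.WA
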